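import Mathlib

set_option autoImplicit false

/-!
# MP_fcd94d_an: the equations of the submanifolds
-/

namespace Pool.Agent.MP_fcd94d_an

/-- The map whose zero set is `M`. -/
def equations {N r : ℕ} (a : (Fin N → ℂ) → ℂ) (f : Fin r → (Fin N → ℂ) → ℂ)
    (P : Fin r → Polynomial ℂ) (p : (Fin N → ℂ) × ℂ × (Fin r → ℂ)) : Fin r → ℂ :=
  fun i => f i p.1 * p.2.2 i - (P i).eval (a p.1 * p.2.1)

end Pool.Agent.MP_fcd94d_an
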