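import Mathlib

/-!
Splitting off the zeros of an entire function in a disc.
-/

open Complex Metric Set Filter Topology

namespace Pool.Agent.Immers

theorem factor_point {Q : ℂ → ℂ} (hQ : Differentiable ℂ Q) {a : ℂ}
    (h0 : ¬ ∀ᶠ c in 𝓝 a, Q c = 0) :
    ∃ (m : ℕ) (Q₁ : ℂ → ℂ), Differentiable ℂ Q₁ ∧ Q₁ a ≠ 0 ∧ ∀ c, Q c = (c - a) ^ m * Q₁ c := by
  obtain ⟨m, g, hg, hga, hgQ⟩ :=
    (hQ.analyticAt a).exists_eventuallyEq_pow_smul_nonzero_iff.2 h0
  classical
  let Q₁ : ℂ → ℂ := fun c => if c = a then g a else Q c / (c - a) ^ m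
  have hev : Q₁ =ᶠ[𝓝 a] g := by
    filter_upwards [hgQ] with c hc
    by_cases h : c = a
    · simp only [Q₁, h, if_true]
    · have h1 : (c - a) ^ m ≠ 0 := pow_ne_zero _ (sub_ne_zero.2 h)
      simp only [Q₁, if_neg h]
      rw [hc, smul_eq_mul, mul_div_cancel_left₀ _ h1]
  refine ⟨m, Q₁, fun c => ?_, ?_, fun c => ?_⟩
  · by_cases h : c = a
    · rw [h]
      exact (hg.congr hev.symm).differentiableAt
    · have hev2 : Q₁ =ᶠ[𝓝 c] fun c => Q c / (c - a) ^ m := by
        filter_upwards [isOpen_ne.mem_nhds h] with y hy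
        simp only [Q₁, if_neg (show ¬ y = a from hy)]
      have h1 : DifferentiableAt ℂ (fun c => Q c / (c - a) ^ m) c :=
        (hQ c).div ((differentiableAt_id.sub_const a).pow m)
          (pow_ne_zero _ (sub_ne_zero.2 h))
      exact h1.congr_of_eventuallyEq hev2
  · simp only [Q₁, if_true]
    exact hga
  · by_cases h : c = a
    · rw [h]
      have h1 := hgQ.self_of_nhds
      simp only [Q₁, if_true]
      rw [h1, smul_eq_mul]
    · have h1 : (c - a) ^ m ≠ 0 := pow_ne_zero _ (sub_ne_zero.2 h)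
      simp only [Q₁, if_neg h]
      rw [mul_div_cancel₀ _ h1]

/-- entire functions which are not identically zero do not vanish near any point -/
theorem not_eventually_zero {Q : ℂ → ℂ} (hQ : Differentiable ℂ Q) {c₀ : ℂ} (hc₀ : Q c₀ ≠ 0)
    (a : ℂ) : ¬ ∀ᶠ c in 𝓝 a, Q c = 0 := by
  intro h
  have h1 : AnalyticOnNhd ℂ Q univ := fun c _ => hQ.analyticAt c
  have h2 := h1.eqOn_zero_of_preconnected_of_eventuallyEq_zero isPreconnected_univ (mem_univ a) h
  exact hc₀ (h2 (mem_univ c₀))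

theorem factor_finset (R : ℝ) (Z : Finset ℂ) : ∀ {Q : ℂ → ℂ}, Differentiable ℂ Q → ∀ {c₀ : ℂ},
    Q c₀ ≠ 0 → (∀ c, ‖c‖ ≤ R → Q c = 0 → c ∈ Z) →
    ∃ (L : List ℂ) (Q' : ℂ → ℂ), Differentiable ℂ Q' ∧ (∀ c, ‖c‖ ≤ R → Q' c ≠ 0) ∧
      (∀ a ∈ L, Q a = 0) ∧ ∀ c, Q c = (L.map (fun a => c - a)).prod * Q' c := by
  induction Z using Finset.induction_on with
  | empty =>
    intro Q hQ c₀ _ hZ
    exact ⟨[], Q, hQ, fun c hc h => absurd (hZ c hc h) (Finset.notMem_empty _), fun a ha => by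
      simp at ha, fun c => by simp⟩
  | insert a Z ha ih =>
    intro Q hQ c₀ hc₀ hZ
    obtain ⟨m, Q₁, hQ₁, hQ₁a, hQQ⟩ := factor_point hQ (not_eventually_zero hQ hc₀ a)
    have hc₁ : Q₁ c₀ ≠ 0 := by
      intro h
      apply hc₀
      rw [hQQ, h, mul_zero]
    obtain ⟨L, Q', hQ', h1, h2, h3⟩ := ih hQ₁ hc₁ (by
      intro c hc h
      have h4 : Q c = 0 := by rw [hQQ, h, mul_zero]
      rcases Finset.mem_insert.1 (hZ c hc h4) with h5 | h5
      · rw [h5] at h
        exact absurd h hQ₁a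
      · exact h5)
    refine ⟨List.replicate m a ++ L, Q', hQ', h1, ?_, ?_⟩
    · intro b hb
      rcases List.mem_append.1 hb with hb | hb
      · have h6 := List.eq_of_mem_replicate hb
        have h7 : m ≠ 0 := by
          intro h8
          rw [h8] at hb
          simp at hb
        rw [h6, hQQ, sub_self, zero_pow h7, zero_mul]
      · rw [hQQ, h2 b hb, mul_zero]
    · intro c
      rw [List.map_append, List.prod_append, List.map_replicate, List.prod_replicate, hQQ c,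
        h3 c]
      ring

/-- splitting off the zeros in a disc -/
theorem exists_factor {Q : ℂ → ℂ} (hQ : Differentiable ℂ Q) {c₀ : ℂ} (hc₀ : Q c₀ ≠ 0) (R : ℝ) :
    ∃ (L : List ℂ) (Q' : ℂ → ℂ), Differentiable ℂ Q' ∧ (∀ c, ‖c‖ ≤ R → Q' c ≠ 0) ∧
      (∀ a ∈ L, Q a = 0) ∧ ∀ c, Q c = (L.map (fun a => c - a)).prod * Q' c := by
  have hfin : {c | ‖c‖ ≤ R ∧ Q c = 0}.Finite := by
    by_contra hinf
    obtain ⟨a, ha, hacc⟩ := Set.Infinite.exists_accPt_of_subset_isCompact hinf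
      (isCompact_closedBall (0 : ℂ) R) (by
        intro c hc
        rw [mem_closedBall_zero_iff]
        exact hc.1)
    have h1 : AnalyticOnNhd ℂ Q univ := fun c _ => hQ.analyticAt c
    have h2 : ∃ᶠ c in 𝓝[≠] a, Q c = 0 := by
      rw [accPt_iff_frequently_nhdsNE] at hacc
      exact hacc.mono fun c hc => hc.2
    have h3 := h1.eqOn_zero_of_preconnected_of_frequently_eq_zero isPreconnected_univ
      (mem_univ a) h2
    exact hc₀ (h3 (mem_univ c₀))
  exact factor_finset R hfin.toFinset hQ hc₀ (fun c hc h => hfin.mem_toFinset.2 ⟨hc, h⟩)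

end Pool.Agent.Immers
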