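import Pool.Agent.Lib.MP_fcd94d_an.Mfd

/-!
Derivatives along a vector field, killing the values of a function on the zero set of a first
integral.
-/

set_option linter.unusedSectionVars false

open Complex Metric Set Filter Topology
open scoped Manifold

namespace Pool.Agent.Immers

/-- the entire function `(exp t - 1) / t` -/
noncomputable def phi : ℂ → ℂ := dslope Complex.exp 0

theorem phi_diff : Differentiable ℂ phi := by
  have h : DifferentiableOn ℂ phi univ :=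
    (Complex.differentiableOn_dslope univ_mem).2 differentiable_exp.differentiableOn
  exact fun t => (h t (mem_univ t)).differentiableAt univ_mem

theorem mul_phi (t : ℂ) : t * phi t = exp t - 1 := by
  have h := sub_smul_dslope Complex.exp 0 t
  rw [sub_zero, exp_zero, smul_eq_mul] at h
  exact h

theorem phi_zero : phi 0 = 1 := by
  simp [phi, dslope_same]

theorem phi_add (t : ℂ) : phi t + t * deriv phi t = exp t := by
  have h1 : HasDerivAt (fun t => t * phi t) (1 * phi t + t * deriv phi t) t :=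
    (hasDerivAt_id t).mul (phi_diff t).hasDerivAt
  have h2 : HasDerivAt (fun t => t * phi t) (exp t) t := by
    have h3 : (fun t => t * phi t) = fun t => exp t - 1 := funext mul_phi
    rw [h3]
    exact (hasDerivAt_exp t).sub_const 1
  have h4 := h1.unique h2
  rw [one_mul] at h4
  exact h4

variable {M : Type} [TopologicalSpace M] [ChartedSpace E2 M] [IsManifold 𝓘(ℂ, E2) 1 M]

/-- derivative of a function along a vector field -/
noncomputable def dV (V : (p : M) → TangentSpace 𝓘(ℂ, E2) p) (f : M → ℂ) (p : M) : ℂ :=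
  mfderiv 𝓘(ℂ, E2) 𝓘(ℂ, ℂ) f p (V p)

theorem comp2 {x f : M → ℂ} (hx : MDifferentiable 𝓘(ℂ, E2) 𝓘(ℂ, ℂ) x)
    (hf : MDifferentiable 𝓘(ℂ, E2) 𝓘(ℂ, ℂ) f) {Φ : ℂ × ℂ → ℂ} (hΦ : Differentiable ℂ Φ) :
    MDifferentiable 𝓘(ℂ, E2) 𝓘(ℂ, ℂ) (fun p => Φ (x p, f p)) := by
  intro p
  have h1 : MDifferentiableAt 𝓘(ℂ, ℂ × ℂ) 𝓘(ℂ, ℂ) Φ (x p, f p) := (hΦ _).mdifferentiableAt
  exact h1.comp p ((hx p).prodMk_space (hf p))

theorem dV_comp2 {V : (p : M) → TangentSpace 𝓘(ℂ, E2) p} {x f : M → ℂ}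
    (hx : MDifferentiable 𝓘(ℂ, E2) 𝓘(ℂ, ℂ) x)
    (hf : MDifferentiable 𝓘(ℂ, E2) 𝓘(ℂ, ℂ) f) {Φ : ℂ × ℂ → ℂ} (hΦ : Differentiable ℂ Φ) (p : M) :
    dV V (fun p => Φ (x p, f p)) p = fderiv ℂ Φ (x p, f p) (dV V x p, dV V f p) := by
  have h1 : HasMFDerivAt 𝓘(ℂ, ℂ × ℂ) 𝓘(ℂ, ℂ) Φ (x p, f p) (fderiv ℂ Φ (x p, f p)) :=
    (hΦ _).hasFDerivAt.hasMFDerivAt
  have hx' := (hx p).hasMFDerivAt
  have hf' := (hf p).hasMFDerivAt
  have h2 : HasMFDerivAt 𝓘(ℂ, E2) 𝓘(ℂ, ℂ × ℂ) (fun p => (x p, f p)) p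
      ((mfderiv 𝓘(ℂ, E2) 𝓘(ℂ, ℂ) x p).prod (mfderiv 𝓘(ℂ, E2) 𝓘(ℂ, ℂ) f p)) :=
    ⟨hx'.1.prodMk hf'.1, hx'.2.prodMk hf'.2⟩
  have h3 := HasMFDerivAt.comp p h1 h2
  have h4 := h3.mfderiv
  unfold dV
  exact congrArg (fun A => A (V p)) h4

theorem dV_comp1 {V : (p : M) → TangentSpace 𝓘(ℂ, E2) p} {f : M → ℂ}
    (hf : MDifferentiable 𝓘(ℂ, E2) 𝓘(ℂ, ℂ) f) {E : ℂ → ℂ} (hE : Differentiable ℂ E) (p : M) :
    dV V (fun p => E (f p)) p = deriv E (f p) * dV V f p := by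
  have h1 : HasMFDerivAt 𝓘(ℂ, ℂ) 𝓘(ℂ, ℂ) E (f p) (fderiv ℂ E (f p)) :=
    (hE _).hasFDerivAt.hasMFDerivAt
  have h3 := HasMFDerivAt.comp p h1 (hf p).hasMFDerivAt
  have h4 := h3.mfderiv
  have h5 : dV V (fun p => E (f p)) p = fderiv ℂ E (f p) (dV V f p) :=
    congrArg (fun A => A (V p)) h4
  rw [h5, fderiv_eq_smul_deriv, smul_eq_mul, mul_comm]

theorem mdiff_comp1 {f : M → ℂ}
    (hf : MDifferentiable 𝓘(ℂ, E2) 𝓘(ℂ, ℂ) f) {E : ℂ → ℂ} (hE : Differentiable ℂ E) :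
    MDifferentiable 𝓘(ℂ, E2) 𝓘(ℂ, ℂ) (fun p => E (f p)) := by
  intro p
  have h1 : MDifferentiableAt 𝓘(ℂ, ℂ) 𝓘(ℂ, ℂ) E (f p) := (hE _).mdifferentiableAt
  exact h1.comp p (hf p)

theorem dV_mul {V : (p : M) → TangentSpace 𝓘(ℂ, E2) p} {f g : M → ℂ}
    (hf : MDifferentiable 𝓘(ℂ, E2) 𝓘(ℂ, ℂ) f) (hg : MDifferentiable 𝓘(ℂ, E2) 𝓘(ℂ, ℂ) g) (p : M) :
    dV V (fun p => f p * g p) p = f p * dV V g p + g p * dV V f p := by
  have h := dV_comp2 (V := V) hf hg (Φ := fun w => w.1 * w.2)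
    (differentiable_fst.mul differentiable_snd) p
  have h2 : fderiv ℂ (fun w : ℂ × ℂ => w.1 * w.2) (f p, g p) (dV V f p, dV V g p) =
      f p * dV V g p + g p * dV V f p := by
    have h3 : HasFDerivAt (fun w : ℂ × ℂ => w.1 * w.2)
        ((f p) • ContinuousLinearMap.snd ℂ ℂ ℂ + (g p) • ContinuousLinearMap.fst ℂ ℂ ℂ)
        (f p, g p) :=
      (hasFDerivAt_fst (𝕜 := ℂ) (p := (f p, g p))).mul (hasFDerivAt_snd (𝕜 := ℂ) (p := (f p, g p)))
    rw [h3.fderiv]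
    rfl
  exact h.trans h2

theorem dV_mul_left {V : (p : M) → TangentSpace 𝓘(ℂ, E2) p} {f g : M → ℂ}
    (hf : MDifferentiable 𝓘(ℂ, E2) 𝓘(ℂ, ℂ) f) (hg : MDifferentiable 𝓘(ℂ, E2) 𝓘(ℂ, ℂ) g) (p : M)
    (h0 : dV V f p = 0) :
    dV V (fun p => f p * g p) p = f p * dV V g p := by
  rw [dV_mul hf hg, h0, mul_zero, add_zero]

/-- a function of a first integral -/
theorem dV_first {V : (p : M) → TangentSpace 𝓘(ℂ, E2) p} {x : M → ℂ}
    (hx : MDifferentiable 𝓘(ℂ, E2) 𝓘(ℂ, ℂ) x) (hVx : ∀ p, dV V x p = 0)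
    {E : ℂ → ℂ} (hE : Differentiable ℂ E) (p : M) : dV V (fun p => E (x p)) p = 0 := by
  rw [dV_comp1 hx hE, hVx, mul_zero]

section

variable {V : (p : M) → TangentSpace 𝓘(ℂ, E2) p} {q : M → ℂ}
  (hq : MDifferentiable 𝓘(ℂ, E2) 𝓘(ℂ, ℂ) q) (hVq : ∀ p, dV V q p = 0)
include hq hVq

/-- killing one value on the zero set of `q` -/
theorem kill_one {f : M → ℂ} (hf : MDifferentiable 𝓘(ℂ, E2) 𝓘(ℂ, ℂ) f) {s : ℂ} (hs : s ≠ 0)
    {K : Set M} (hK : IsCompact K) (hKq : ∀ p ∈ K, ‖1 - q p‖ < 1) {ε : ℝ} (hε : 0 < ε) :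
    ∃ f' : M → ℂ, MDifferentiable 𝓘(ℂ, E2) 𝓘(ℂ, ℂ) f' ∧ ∃ κ : M → ℂ, Continuous κ ∧
      (∀ p, dV V f' p = exp (κ p) * dV V f p) ∧ (∀ p ∈ K, ‖f' p - f p‖ ≤ ε ∧ ‖κ p‖ ≤ ε) ∧
      ∃ g : ℂ → ℂ, g 0 = 0 ∧ g s = 0 ∧ ∀ p, q p = 0 → f' p = g (f p) := by
  have hcq : Continuous q := hq.continuous
  have hcf : Continuous f := hf.continuous
  obtain ⟨δ, hδ, hδ'⟩ := Metric.continuousAt_iff.1 (phi_diff 0).continuousAt
    (ε / (1 + (sSup ((fun p => ‖f p‖) '' K)))) (by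
      apply div_pos hε
      have h1 : 0 ≤ sSup ((fun p => ‖f p‖) '' K) := by
        apply Real.sSup_nonneg
        rintro _ ⟨p, -, rfl⟩
        exact norm_nonneg _
      linarith)
  set B : ℝ := sSup ((fun p => ‖f p‖) '' K) with hB
  have hB0 : 0 ≤ B := by
    apply Real.sSup_nonneg
    rintro _ ⟨p, -, rfl⟩
    exact norm_nonneg _
  have hBf : ∀ p ∈ K, ‖f p‖ ≤ B := by
    intro p hp
    exact le_csSup (hK.image hcf.norm).bddAbove ⟨p, hp, rfl⟩
  set η : ℝ := min δ ε / (2 * (1 + B)) with hη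
  have hη0 : 0 < η := div_pos (lt_min hδ hε) (by linarith)
  -- choice of the exponent
  obtain ⟨N, hN⟩ : ∃ N : ℕ, ∀ p ∈ K, ‖2 * Real.pi * I / s * (1 - q p) ^ N‖ ≤ η := by
    rcases K.eq_empty_or_nonempty with hKe | hKne
    · exact ⟨0, fun p hp => by rw [hKe] at hp; exact absurd hp (notMem_empty p)⟩
    · obtain ⟨p₀, hp₀, hmax⟩ := hK.exists_isMaxOn hKne
        (continuous_const.sub hcq).norm.continuousOn (f := fun p => ‖1 - q p‖)
      have ht : Tendsto (fun N : ℕ => ‖(2 * Real.pi * I / s : ℂ)‖ * ‖1 - q p₀‖ ^ N) atTop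
          (𝓝 0) := by
        have h2 := (tendsto_pow_atTop_nhds_zero_of_lt_one (norm_nonneg _) (hKq p₀ hp₀)).const_mul
          ‖(2 * Real.pi * I / s : ℂ)‖
        rwa [mul_zero] at h2
      obtain ⟨N, hN⟩ := (ht.eventually (gt_mem_nhds hη0)).exists
      refine ⟨N, fun p hp => ?_⟩
      rw [norm_mul, norm_pow]
      refine le_trans ?_ hN.le
      apply mul_le_mul_of_nonneg_left _ (norm_nonneg _)
      exact pow_le_pow_left₀ (norm_nonneg _) (hmax hp) N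
  set lam : ℂ → ℂ := fun c => 2 * Real.pi * I / s * (1 - c) ^ N with hlam
  have hlamd : Differentiable ℂ lam := by
    intro c
    exact (((differentiableAt_const (1 : ℂ)).sub differentiableAt_id).pow N).const_mul _
  have hlam0 : lam 0 = 2 * Real.pi * I / s := by
    simp only [hlam, sub_zero, one_pow, mul_one]
  set Φ : ℂ × ℂ → ℂ := fun w => w.2 * phi (lam w.1 * w.2) with hΦ
  have hΦd : Differentiable ℂ Φ := by
    apply differentiable_snd.mul
    exact phi_diff.comp ((hlamd.comp differentiable_fst).mul differentiable_snd)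
  have hder : ∀ w : ℂ × ℂ, ∀ t : ℂ, fderiv ℂ Φ w (0, t) = exp (lam w.1 * w.2) * t := by
    intro w t
    have h1 : HasDerivAt (fun b : ℂ => Φ (w.1, b)) (fderiv ℂ Φ w (0, 1)) w.2 := by
      have h2 : HasDerivAt (fun b : ℂ => (w.1, b)) (0, 1) w.2 :=
        (hasDerivAt_const w.2 w.1).prodMk (hasDerivAt_id w.2)
      exact (hΦd w).hasFDerivAt.comp_hasDerivAt w.2 h2
    have h3 : HasDerivAt (fun b : ℂ => Φ (w.1, b))
        (1 * phi (lam w.1 * w.2) + w.2 * (deriv phi (lam w.1 * w.2) * lam w.1)) w.2 := by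
      have h4 : HasDerivAt (fun b : ℂ => lam w.1 * b) (lam w.1) w.2 := by
        simpa using (hasDerivAt_id w.2).const_mul (lam w.1)
      have h5 : HasDerivAt (fun b : ℂ => phi (lam w.1 * b)) (deriv phi (lam w.1 * w.2) * lam w.1)
          w.2 := (phi_diff (lam w.1 * w.2)).hasDerivAt.comp w.2 h4
      exact (hasDerivAt_id w.2).mul h5
    have h6 := h1.unique h3
    have h7 : ((0 : ℂ), t) = t • ((0 : ℂ), (1 : ℂ)) := by simp
    rw [h7, map_smul, h6, smul_eq_mul, ← phi_add (lam w.1 * w.2)]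
    ring
  refine ⟨fun p => Φ (q p, f p), comp2 hq hf hΦd, fun p => lam (q p) * f p, ?_, ?_, ?_, ?_⟩
  · exact (hlamd.continuous.comp hcq).mul hcf
  · intro p
    rw [dV_comp2 hq hf hΦd, hVq, hder]
  · intro p hp
    have h1 : ‖lam (q p) * f p‖ ≤ min δ ε / 2 := by
      rw [norm_mul]
      calc ‖lam (q p)‖ * ‖f p‖ ≤ η * (1 + B) := by
            apply mul_le_mul (hN p hp) (by linarith [hBf p hp]) (norm_nonneg _) hη0.le
        _ = min δ ε / 2 := by
            rw [hη]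
            field_simp
    have h2 : min δ ε / 2 < min δ ε := by
      have := lt_min hδ hε
      linarith
    refine ⟨?_, ?_⟩
    · have h3 : ‖phi (lam (q p) * f p) - 1‖ < ε / (1 + B) := by
        have h4 := hδ' (x := lam (q p) * f p) (by
          rw [dist_zero_right]
          exact lt_of_le_of_lt h1 (lt_of_lt_of_le h2 (min_le_left _ _)))
        rw [dist_eq_norm, phi_zero] at h4
        exact h4
      have h5 : Φ (q p, f p) - f p = f p * (phi (lam (q p) * f p) - 1) := by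
        simp only [hΦ]
        ring
      rw [h5, norm_mul]
      calc ‖f p‖ * ‖phi (lam (q p) * f p) - 1‖ ≤ (1 + B) * (ε / (1 + B)) := by
            apply mul_le_mul (by linarith [hBf p hp]) h3.le (norm_nonneg _) (by linarith)
        _ = ε := by field_simp
    · exact h1.trans (h2.le.trans (min_le_right _ _))
  · refine ⟨fun b => b * phi (2 * Real.pi * I / s * b), zero_mul _, ?_, ?_⟩
    · have h1 : (2 * Real.pi * I / s) * s = 2 * Real.pi * I := div_mul_cancel₀ _ hs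
      have h2 := mul_phi (2 * Real.pi * I)
      rw [exp_two_pi_mul_I, sub_self] at h2
      simp only
      rw [h1, (mul_eq_zero.1 h2).resolve_left two_pi_I_ne_zero, mul_zero]
    · intro p hp
      simp only [hΦ, hp, hlam0]

/-- killing finitely many values on the zero set of `q` -/
theorem kill_all (n : ℕ) : ∀ (T : Finset ℂ), T.card = n → ∀ {f : M → ℂ},
    MDifferentiable 𝓘(ℂ, E2) 𝓘(ℂ, ℂ) f → (∀ p, q p = 0 → f p = 0 ∨ f p ∈ T) →
    ∀ {K : Set M}, IsCompact K → (∀ p ∈ K, ‖1 - q p‖ < 1) → ∀ {ε : ℝ}, 0 < ε →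
    ∃ f' : M → ℂ, MDifferentiable 𝓘(ℂ, E2) 𝓘(ℂ, ℂ) f' ∧ ∃ κ : M → ℂ, Continuous κ ∧
      (∀ p, dV V f' p = exp (κ p) * dV V f p) ∧ (∀ p ∈ K, ‖f' p - f p‖ ≤ ε ∧ ‖κ p‖ ≤ ε) ∧
      ∀ p, q p = 0 → f' p = 0 := by
  induction n with
  | zero =>
    intro T hT f hf hfa K hK hKa ε hε
    rw [Finset.card_eq_zero] at hT
    refine ⟨f, hf, fun _ => 0, continuous_const, fun p => by simp, fun p _ => by simp [hε.le],
      fun p hp => ?_⟩
    rcases hfa p hp with h | h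
    · exact h
    · rw [hT] at h
      exact absurd h (Finset.notMem_empty _)
  | succ n ih =>
    intro T hT f hf hfa K hK hKa ε hε
    obtain ⟨s, T', hsT, rfl, hT'⟩ := Finset.card_eq_succ.1 hT
    by_cases hs : s = 0
    · refine ih T' hT' hf (fun p hp => ?_) hK hKa hε
      rcases hfa p hp with h | h
      · exact Or.inl h
      · rcases Finset.mem_insert.1 h with h | h
        · exact Or.inl (h.trans hs)
        · exact Or.inr h
    · obtain ⟨f₁, hf₁, κ₁, hκ₁, h1, h2, g, hg0, hgs, hg⟩ :=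
        kill_one hq hVq hf hs hK hKa (half_pos hε)
      have hT'' : (T'.image g).card ≤ n := hT' ▸ Finset.card_image_le
      obtain ⟨f₂, hf₂, κ₂, hκ₂, h3, h4, h5⟩ : ∃ f' : M → ℂ,
          MDifferentiable 𝓘(ℂ, E2) 𝓘(ℂ, ℂ) f' ∧ ∃ κ : M → ℂ, Continuous κ ∧
          (∀ p, dV V f' p = exp (κ p) * dV V f₁ p) ∧
          (∀ p ∈ K, ‖f' p - f₁ p‖ ≤ ε / 2 ∧ ‖κ p‖ ≤ ε / 2) ∧ ∀ p, q p = 0 → f' p = 0 := by
        obtain ⟨T₂, hT₂, hT₂c⟩ := Infinite.exists_superset_card_eq (T'.image g) n hT''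
        refine ih T₂ hT₂c hf₁ (fun p hp => ?_) hK hKa (half_pos hε)
        rw [hg p hp]
        rcases hfa p hp with h | h
        · left
          rw [h, hg0]
        · rcases Finset.mem_insert.1 h with h | h
          · left
            rw [h, hgs]
          · right
            exact hT₂ (Finset.mem_image_of_mem g h)
      refine ⟨f₂, hf₂, fun p => κ₂ p + κ₁ p, hκ₂.add hκ₁, fun p => ?_, fun p hp => ⟨?_, ?_⟩, h5⟩
      · rw [h3, h1, exp_add]
        ring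
      · have e1 : f₂ p - f p = (f₂ p - f₁ p) + (f₁ p - f p) := by ring
        rw [e1]
        refine (norm_add_le _ _).trans ?_
        linarith [(h4 p hp).1, (h2 p hp).1]
      · refine (norm_add_le _ _).trans ?_
        linarith [(h4 p hp).2, (h2 p hp).2]

end

end Pool.Agent.Immers
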