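import Mathlib
import Pool.Agent.Lib.MP_fcd94d_an_KR.Main

/-!
# MP_fcd94d_an, Q1: immersions of the hypersurfaces `x ^ m * y = P (x, z)` in every dimension

`M ⊆ ℂ × ℂ × ℂ ^ k` is given by the equation `x ^ m * y = P (x, z)`, where `m ≥ 2` and `P` is an
entire function, `P (x, z) = ∑ i < m, a_i z * x ^ i + x ^ m * R (x, z)`, and the projection to `z` has
no critical points on `M`, that is, `a_0` and `a_1` have no common zeros (in the form
`α * a_1 + β * a_0 = 1`). Then `M` is a closed complex submanifold of dimension `n = k + 1`, and it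
has a holomorphic immersion in `ℂ ^ n`. Examples are the Koras-Russell threefolds
`x + x ^ m * y + z ^ p + t ^ q = 0`.

Proof. Let `w = x ^ (m - 1) * (y - R) - ∑ 1 ≤ i < m, a_i * x ^ (i - 1)`, so that `x * w = a_0` on
`M`. There is an entire function `u` of `z` with `t = - u * w` congruent to `1` modulo
`x ^ (m - 1)` on `M`. Hence `x * t = - u * a_0` depends only on `z`, and
`G = (exp (2 π i t ^ (m - 1)) - 1) / (x * t) ^ (m - 1)` is holomorphic on `M`. The map
`F = (z, G)` is an immersion.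
-/

namespace Pool.Agent.Results.MP_fcd94d_an.KorasRussell

open Pool.Agent.MP_fcd94d_an.KR

theorem result (k m : ℕ) (hm : 2 ≤ m) (a : ℕ → (Fin k → ℂ) → ℂ) (R : ℂ × (Fin k → ℂ) → ℂ)
    (α β : (Fin k → ℂ) → ℂ) (ha : ∀ i, Entire (a i)) (hR : Entire R)
    (hα : Entire α) (hβ : Entire β) (h : ∀ z, α z * a 1 z + β z * a 0 z = 1) :
    SmoothZeros (eqn m a R) ∧
    ∃ F : ℂ × ℂ × (Fin k → ℂ) → (Fin k → ℂ) × ℂ, ImmersesZeros (eqn m a R) F := by
  obtain ⟨h1, h2, F, h3, h4⟩ := final k m hm a R α β ha hR hα hβ h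
  exact ⟨⟨h1, h2⟩, F, h3, h4⟩

end Pool.Agent.Results.MP_fcd94d_an.KorasRussell
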