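import Pool.Agent.Lib.MP_fcd94d_an.Kill

/-!
Locally uniform limits of holomorphic functions on a complex surface.
-/

set_option linter.unusedSectionVars false

open Complex Metric Set Filter Topology
open scoped Manifold

namespace Pool.Agent.Immers

theorem tendsto_fderiv {U : Set (ℂ × ℂ)} (hU : IsOpen U) {F : ℕ → ℂ × ℂ → ℂ} {f : ℂ × ℂ → ℂ}
    (hF : ∀ n, AnalyticOnNhd ℂ (F n) U) (h : TendstoLocallyUniformlyOn F f atTop U) (c : ℂ × ℂ)
    (hc : c ∈ U) (w : ℂ × ℂ) :
    Tendsto (fun n => fderiv ℂ (F n) c w) atTop (𝓝 (fderiv ℂ f c w)) := by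
  have hf := SCV.analyticOnNhd_of_tendstoLocallyUniformlyOn U hU F f hF h
  set l : ℂ → ℂ × ℂ := fun t => c + t • w with hl
  have hld : ∀ t, HasDerivAt l w t := by
    intro t
    have h1 : HasDerivAt (fun t : ℂ => t • w) ((1 : ℂ) • w) t := (hasDerivAt_id t).smul_const w
    rw [one_smul] at h1
    exact h1.const_add c
  have hlc : Continuous l := continuous_iff_continuousAt.2 fun t => (hld t).continuousAt
  have hop : IsOpen (l ⁻¹' U) := hU.preimage hlc
  have hl0 : l 0 = c := by simp [hl]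
  have h0 : (0 : ℂ) ∈ l ⁻¹' U := by
    rw [mem_preimage, hl0]
    exact hc
  have h2 : TendstoLocallyUniformlyOn (fun n => F n ∘ l) (f ∘ l) atTop (l ⁻¹' U) :=
    h.comp l (mapsTo_preimage _ _) hlc.continuousOn
  have h3 := (h2.deriv (Filter.Eventually.of_forall fun n t ht => by
    have h4 := (hF n (l t) ht).differentiableAt
    exact (h4.comp t (hld t).differentiableAt).differentiableWithinAt) hop).tendsto_at h0
  have h5 : deriv (f ∘ l) 0 = fderiv ℂ f c w := by
    have h6 : HasFDerivAt f (fderiv ℂ f c) (l 0) := by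
      rw [hl0]
      exact (hf c hc).differentiableAt.hasFDerivAt
    exact (h6.comp_hasDerivAt 0 (hld 0)).deriv
  have h7 : ∀ n, deriv (F n ∘ l) 0 = fderiv ℂ (F n) c w := by
    intro n
    have h6 : HasFDerivAt (F n) (fderiv ℂ (F n) c) (l 0) := by
      rw [hl0]
      exact (hF n c hc).differentiableAt.hasFDerivAt
    exact (h6.comp_hasDerivAt 0 (hld 0)).deriv
  rw [h5] at h3
  refine h3.congr fun n => ?_
  exact h7 n

variable {M : Type} [TopologicalSpace M] [ChartedSpace E2 M] [IsManifold 𝓘(ℂ, E2) 1 M]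

/-- limits of sequences of holomorphic functions on a surface -/
theorem exists_limit {K : ℕ → Set M} (hmono : Monotone K) (hnhds : ∀ p, ∃ m, K m ∈ 𝓝 p)
    {f : ℕ → M → ℂ} (hf : ∀ n, MDifferentiable 𝓘(ℂ, E2) 𝓘(ℂ, ℂ) (f n))
    (hK : ∀ n, ∀ p ∈ K n, ‖f (n + 1) p - f n p‖ ≤ (1 / 2 : ℝ) ^ n) :
    ∃ g : M → ℂ, MDifferentiable 𝓘(ℂ, E2) 𝓘(ℂ, ℂ) g ∧
      ∀ (V : (p : M) → TangentSpace 𝓘(ℂ, E2) p) (p : M),
        Tendsto (fun n => dV V (f n) p) atTop (𝓝 (dV V g p)) := by
  have hdist : ∀ m, ∀ p ∈ K m, ∀ n, dist (f (n + m) p) (f (n + 1 + m) p) ≤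
      (1 / 2 : ℝ) ^ m * (1 / 2 : ℝ) ^ n := by
    intro m p hp n
    have h1 : p ∈ K (n + m) := hmono (Nat.le_add_left m n) hp
    have h2 := hK (n + m) p h1
    rw [dist_comm, dist_eq_norm, ← pow_add]
    have h3 : n + 1 + m = n + m + 1 := by ring
    rw [h3, add_comm m n]
    exact h2
  have hex : ∀ p, ∃ l, Tendsto (fun n => f n p) atTop (𝓝 l) := by
    intro p
    obtain ⟨m, hm⟩ := hnhds p
    have h1 := cauchySeq_of_le_geometric (1 / 2 : ℝ) ((1 / 2 : ℝ) ^ m) (by norm_num)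
      (hdist m p (mem_of_mem_nhds hm))
    obtain ⟨l, hl⟩ := cauchySeq_tendsto_of_complete h1
    exact ⟨l, (tendsto_add_atTop_iff_nat (f := fun n => f n p) m).1 hl⟩
  choose g hg using hex
  have hunif : ∀ m, TendstoUniformlyOn f g atTop (K m) := by
    intro m
    rw [Metric.tendstoUniformlyOn_iff]
    intro ε hε
    have ht : Tendsto (fun n : ℕ => (1 / 2 : ℝ) ^ m * (1 / 2 : ℝ) ^ n / (1 - 1 / 2)) atTop
        (𝓝 0) := by
      have h2 := ((tendsto_pow_atTop_nhds_zero_of_lt_one (r := (1 / 2 : ℝ)) (by norm_num)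
        (by norm_num)).const_mul ((1 / 2 : ℝ) ^ m)).div_const (1 - 1 / 2)
      simpa using h2
    obtain ⟨n₀, hn₀⟩ := Filter.eventually_atTop.1 (ht.eventually (gt_mem_nhds hε))
    filter_upwards [Filter.eventually_ge_atTop (n₀ + m)] with n hn p hp
    have h3 := dist_le_of_le_geometric_of_tendsto (1 / 2 : ℝ) ((1 / 2 : ℝ) ^ m) (by norm_num)
      (hdist m p hp) ((tendsto_add_atTop_iff_nat (f := fun n => f n p) m).2 (hg p)) (n - m)
    have h4 : n - m + m = n := by omega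
    rw [h4] at h3
    rw [dist_comm]
    exact lt_of_le_of_lt h3 (hn₀ (n - m) (by omega))
  have hloc : TendstoLocallyUniformly f g atTop := by
    apply tendstoLocallyUniformly_of_forall_exists_nhds
    intro p
    obtain ⟨m, hm⟩ := hnhds p
    exact ⟨K m, hm, hunif m⟩
  have hchart : ∀ {e : OpenPartialHomeomorph M (ℂ × ℂ)}, IsHC e →
      TendstoLocallyUniformlyOn (fun n => f n ∘ e.symm) (g ∘ e.symm) atTop e.target := by
    intro e he
    exact (hloc.tendstoLocallyUniformlyOn (s := univ)).comp e.symm (mapsTo_univ _ _)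
      e.continuousOn_symm
  have han : ∀ {e : OpenPartialHomeomorph M (ℂ × ℂ)}, IsHC e → ∀ n,
      AnalyticOnNhd ℂ (f n ∘ e.symm) e.target := by
    intro e he n
    exact SCV.differentiableOn_analyticOnNhd _ e.open_target _ (he.fun_diff (hf n))
  have hgd : MDifferentiable 𝓘(ℂ, E2) 𝓘(ℂ, ℂ) g := by
    intro p
    obtain ⟨e, hp, he⟩ := exists_chart p
    have h1 := SCV.analyticOnNhd_of_tendstoLocallyUniformlyOn e.target e.open_target _ _ (han he)
      (hchart he)
    have h2 := he.fun_mdiff e.open_target h1.differentiableOn hp (e.map_source hp)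
    refine h2.congr_of_eventuallyEq ?_
    filter_upwards [e.open_source.mem_nhds hp] with y hy
    simp [e.left_inv hy]
  refine ⟨g, hgd, fun V p => ?_⟩
  obtain ⟨e, hp, he⟩ := exists_chart p
  have h3 := tendsto_fderiv e.open_target (han he) (hchart he) (e p) (e.map_source hp)
    (mfderiv 𝓘(ℂ, E2) 𝓘(ℂ, ℂ × ℂ) e p (V p))
  have h4 := he.deriv_eq hgd hp (V p)
  have h5 : ∀ n, dV V (f n) p = fderiv ℂ (f n ∘ e.symm) (e p)
      (mfderiv 𝓘(ℂ, E2) 𝓘(ℂ, ℂ × ℂ) e p (V p)) := fun n => he.deriv_eq (hf n) hp (V p)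
  unfold dV at h5 ⊢
  rw [h4]
  refine h3.congr fun n => ?_
  exact (h5 n).symm

end Pool.Agent.Immers
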