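import Pool.Agent.Lib.SCV.Osgood

/-!
Local lemmas in two complex variables: straightening of a function without critical points,
division by such a function, functions constant along its zero set, entire functions without
critical points vanishing at given points.
-/

open Complex Metric Set Filter Topology

namespace Pool.Agent.Immers

/-- an entire function without critical points vanishing at finitely many given points -/
theorem exists_entire (S : Finset ℂ) : ∃ E : ℂ → ℂ, Differentiable ℂ E ∧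
    (∀ w, deriv E w ≠ 0) ∧ ∀ s ∈ S, E s = 0 := by
  induction S using Finset.induction_on with
  | empty =>
    refine ⟨id, differentiable_id, fun w => ?_, fun s hs => absurd hs (Finset.notMem_empty s)⟩
    rw [deriv_id]
    exact one_ne_zero
  | insert a S ha ih =>
    obtain ⟨E, hE, hE', hS⟩ := ih
    by_cases h0 : E a = 0
    · refine ⟨E, hE, hE', fun s hs => ?_⟩
      rcases Finset.mem_insert.1 hs with h | h
      · rw [h, h0]
      · exact hS s h
    · set c : ℂ := 2 * Real.pi * I / E a with hc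
      have hc0 : c ≠ 0 := div_ne_zero two_pi_I_ne_zero h0
      have hd : ∀ w, HasDerivAt (fun w => exp (c * E w) - 1) (exp (c * E w) * (c * deriv E w)) w := by
        intro w
        have h1 : HasDerivAt (fun w => c * E w) (c * deriv E w) w :=
          (hE w).hasDerivAt.const_mul c
        exact (h1.cexp).sub_const 1
      refine ⟨fun w => exp (c * E w) - 1, fun w => (hd w).differentiableAt, fun w => ?_,
        fun s hs => ?_⟩
      · rw [(hd w).deriv]
        exact mul_ne_zero (exp_ne_zero _) (mul_ne_zero hc0 (hE' w))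
      · rcases Finset.mem_insert.1 hs with h | h
        · have h1 : c * E s = 2 * Real.pi * I := by
            rw [h, hc, div_mul_cancel₀ _ h0]
          simp only [h1, exp_two_pi_mul_I, sub_self]
        · simp only [hS s h, mul_zero, exp_zero, sub_self]

/-- `q` is the second coordinate in a suitable chart -/
theorem straighten (U : Set (ℂ × ℂ)) (hU : IsOpen U) (q : ℂ × ℂ → ℂ)
    (hq : DifferentiableOn ℂ q U) (p : ℂ × ℂ) (hp : p ∈ U) (hdq : fderiv ℂ q p ≠ 0) :
    ∃ e : OpenPartialHomeomorph (ℂ × ℂ) (ℂ × ℂ), p ∈ e.source ∧ e.source ⊆ U ∧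
      (∀ w ∈ e.source, (e w).2 = q w) ∧
      ∀ w ∈ e.source, ∃ A : (ℂ × ℂ) ≃L[ℂ] (ℂ × ℂ),
        HasFDerivAt e (A : (ℂ × ℂ) →L[ℂ] (ℂ × ℂ)) w ∧
        HasFDerivAt e.symm (A.symm : (ℂ × ℂ) →L[ℂ] (ℂ × ℂ)) (e w) := by
  have hqa := SCV.differentiableOn_analyticOnNhd U hU q hq
  set a : ℂ := fderiv ℂ q p (1, 0) with ha
  set b : ℂ := fderiv ℂ q p (0, 1) with hb
  have hab : (starRingEnd ℂ) b * b + (starRingEnd ℂ) a * a ≠ 0 := by
    have h1 : (starRingEnd ℂ) b * b + (starRingEnd ℂ) a * a = ((normSq b + normSq a : ℝ) : ℂ) := by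
      rw [mul_comm, mul_conj, mul_comm ((starRingEnd ℂ) a), mul_conj, ofReal_add]
    rw [h1]
    intro h2
    have h3 : normSq b + normSq a = 0 := by exact_mod_cast h2
    have h4 := normSq_nonneg b
    have h5 := normSq_nonneg a
    have h6 : b = 0 := normSq_eq_zero.1 (by linarith)
    have h7 : a = 0 := normSq_eq_zero.1 (by linarith)
    apply hdq
    ext v
    · simpa using h7
    · simpa using h6
  let l : (ℂ × ℂ) →L[ℂ] ℂ := (starRingEnd ℂ) b • ContinuousLinearMap.fst ℂ ℂ ℂ -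
    (starRingEnd ℂ) a • ContinuousLinearMap.snd ℂ ℂ ℂ
  have hl : ∀ v, l v = (starRingEnd ℂ) b * v.1 - (starRingEnd ℂ) a * v.2 := fun v => rfl
  let Ψ : ℂ × ℂ → ℂ × ℂ := fun w => (l w, q w)
  have hΨ : ∀ w ∈ U, HasFDerivAt Ψ (l.prod (fderiv ℂ q w)) w := fun w hw =>
    l.hasFDerivAt.prodMk (hqa w hw).differentiableAt.hasFDerivAt
  have hΨs : HasStrictFDerivAt Ψ (l.prod (fderiv ℂ q p)) p :=
    l.hasStrictFDerivAt.prodMk (hqa p hp).hasStrictFDerivAt
  let Δ : ℂ × ℂ → ℂ := fun w => (starRingEnd ℂ) b * fderiv ℂ q w (0, 1) +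
    (starRingEnd ℂ) a * fderiv ℂ q w (1, 0)
  have hΔc : ContinuousOn Δ U := by
    have h1 : ContinuousOn (fun w => fderiv ℂ q w) U := hqa.fderiv.continuousOn
    exact (continuousOn_const.mul (h1.clm_apply continuousOn_const)).add
      (continuousOn_const.mul (h1.clm_apply continuousOn_const))
  set W : Set (ℂ × ℂ) := U ∩ Δ ⁻¹' {0}ᶜ with hW
  have hWo : IsOpen W := hΔc.isOpen_inter_preimage hU isOpen_compl_singleton
  have hpW : p ∈ W := ⟨hp, hab⟩
  have hA : ∀ w ∈ W, ∃ A : (ℂ × ℂ) ≃L[ℂ] (ℂ × ℂ),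
      (A : (ℂ × ℂ) →L[ℂ] (ℂ × ℂ)) = l.prod (fderiv ℂ q w) := by
    intro w hw
    have hinj : Function.Injective (l.prod (fderiv ℂ q w)).toLinearMap := by
      rw [injective_iff_map_eq_zero]
      intro v hv
      have h1 : l v = 0 := congrArg Prod.fst hv
      have h2 : fderiv ℂ q w v = 0 := congrArg Prod.snd hv
      have h3 : fderiv ℂ q w v = v.1 * fderiv ℂ q w (1, 0) + v.2 * fderiv ℂ q w (0, 1) := by
        have h4 : v = v.1 • ((1, 0) : ℂ × ℂ) + v.2 • ((0, 1) : ℂ × ℂ) := by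
          ext <;> simp
        conv_lhs => rw [h4, map_add, map_smul, map_smul]
        rfl
      rw [h3] at h2
      rw [hl] at h1
      have h5 : Δ w * v.1 = 0 := by
        simp only [Δ]
        linear_combination fderiv ℂ q w (0, 1) * h1 + (starRingEnd ℂ) a * h2
      have h6 : Δ w * v.2 = 0 := by
        simp only [Δ]
        linear_combination (starRingEnd ℂ) b * h2 - fderiv ℂ q w (1, 0) * h1
      ext
      · exact (mul_eq_zero.1 h5).resolve_left hw.2
      · exact (mul_eq_zero.1 h6).resolve_left hw.2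
    refine ⟨(LinearEquiv.ofInjectiveEndo _ hinj).toContinuousLinearEquiv, ?_⟩
    ext v <;> rfl
  obtain ⟨A₀, hA₀⟩ := hA p hpW
  have hs : HasStrictFDerivAt Ψ (A₀ : (ℂ × ℂ) →L[ℂ] (ℂ × ℂ)) p := by
    rw [hA₀]
    exact hΨs
  let e₀ := hs.toOpenPartialHomeomorph Ψ
  refine ⟨e₀.restrOpen W hWo, ?_, ?_, ?_, ?_⟩
  · exact ⟨hs.mem_toOpenPartialHomeomorph_source, hpW⟩
  · intro w hw
    exact hw.2.1
  · intro w hw
    rfl
  · intro w hw
    obtain ⟨A, hAw⟩ := hA w hw.2
    have h1 : HasFDerivAt (e₀.restrOpen W hWo) (A : (ℂ × ℂ) →L[ℂ] (ℂ × ℂ)) w := by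
      rw [hAw]
      exact hΨ w hw.2.1
    refine ⟨A, h1, ?_⟩
    have h2 : (e₀.restrOpen W hWo) w ∈ (e₀.restrOpen W hWo).target :=
      (e₀.restrOpen W hWo).map_source hw
    apply OpenPartialHomeomorph.hasFDerivAt_symm _ h2
    rw [(e₀.restrOpen W hWo).left_inv hw]
    exact h1

/-- division by the second coordinate -/
theorem div_coord (x₀ : ℂ) (r : ℝ) (hr : 0 < r) (h : ℂ × ℂ → ℂ)
    (hh : DifferentiableOn ℂ h (ball x₀ r ×ˢ ball 0 r)) (h0 : ∀ x ∈ ball x₀ r, h (x, 0) = 0) :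
    ∃ g : ℂ × ℂ → ℂ, DifferentiableOn ℂ g (ball x₀ r ×ˢ ball 0 (r / 2)) ∧
      ∀ w ∈ ball x₀ r ×ˢ ball (0 : ℂ) (r / 2), h w = w.2 * g w := by
  have hop : IsOpen (ball x₀ r ×ˢ ball (0 : ℂ) r) := isOpen_ball.prod isOpen_ball
  have hx : ∀ x ∈ ball x₀ r, DifferentiableOn ℂ (fun ζ => h (x, ζ)) (ball 0 r) := by
    intro x hx ζ hζ
    have h1 := (hh (x, ζ) ⟨hx, hζ⟩).differentiableAt (hop.mem_nhds ⟨hx, hζ⟩)
    exact (DifferentiableAt.comp ζ (g := h) (f := fun ζ : ℂ => (x, ζ)) h1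
      (by fun_prop)).differentiableWithinAt
  have hζ0 : ∀ ζ ∈ sphere (0 : ℂ) (r / 2), ζ ≠ 0 ∧ ζ ∈ ball (0 : ℂ) r := by
    intro ζ hζ
    rw [mem_sphere_zero_iff_norm] at hζ
    refine ⟨?_, ?_⟩
    · intro h1
      rw [h1, norm_zero] at hζ
      linarith
    · rw [mem_ball_zero_iff, hζ]
      linarith
  have hA := SCV.analyticOnNhd_cauchy 0 (r / 2) (by linarith) (ball x₀ r) isOpen_ball
    (fun p => h p / p.2)
    (by
      apply ContinuousOn.div
      · exact hh.continuousOn.mono fun p hp => ⟨hp.1, (hζ0 _ hp.2).2⟩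
      · exact continuousOn_snd
      · exact fun p hp => (hζ0 _ hp.2).1)
    (by
      intro ζ hζ x hx
      have h1 := (hh (x, ζ) ⟨hx, (hζ0 ζ hζ).2⟩).differentiableAt
        (hop.mem_nhds ⟨hx, (hζ0 ζ hζ).2⟩)
      exact ((DifferentiableAt.comp x (g := h) (f := fun x : ℂ => (x, ζ)) h1
        (by fun_prop)).div_const ζ).differentiableWithinAt)
  refine ⟨_, hA.differentiableOn, fun w hw => ?_⟩
  have hsub : closedBall (0 : ℂ) (r / 2) ⊆ ball 0 r := closedBall_subset_ball (by linarith)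
  have hds : DifferentiableOn ℂ (dslope (fun ζ => h (w.1, ζ)) 0) (ball 0 r) :=
    (Complex.differentiableOn_dslope (ball_mem_nhds 0 hr)).2 (hx w.1 hw.1)
  have h2 : (∮ ζ in C(0, r / 2), (ζ - w.2)⁻¹ • (h (w.1, ζ) / ζ)) =
      ∮ ζ in C(0, r / 2), (ζ - w.2)⁻¹ • dslope (fun ζ => h (w.1, ζ)) 0 ζ := by
    apply circleIntegral.integral_congr (by linarith)
    intro ζ hζ
    simp only
    rw [dslope_of_ne _ (hζ0 ζ hζ).1, slope_def_field, h0 w.1 hw.1, sub_zero, sub_zero]
  have h3 : (∮ ζ in C(0, r / 2), (ζ - w.2)⁻¹ • dslope (fun ζ => h (w.1, ζ)) 0 ζ) =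
      (2 * Real.pi * I : ℂ) • dslope (fun ζ => h (w.1, ζ)) 0 w.2 :=
    DifferentiableOn.circleIntegral_sub_inv_smul (hds.mono hsub) hw.2
  rw [h2, h3, smul_smul, inv_mul_cancel₀ two_pi_I_ne_zero, one_smul]
  have h4 := sub_smul_dslope (fun ζ => h (w.1, ζ)) 0 w.2
  simp only [sub_zero, h0 w.1 hw.1, smul_eq_mul] at h4
  exact h4.symm

/-- a function whose derivative in the direction of the first coordinate vanishes on the axis is
constant on the axis -/
theorem const_coord (x₀ : ℂ) (r : ℝ) (f : ℂ × ℂ → ℂ)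
    (hf : DifferentiableOn ℂ f (ball x₀ r ×ˢ ball 0 r))
    (h0 : ∀ x ∈ ball x₀ r, fderiv ℂ f (x, 0) (1, 0) = 0) (x : ℂ) (hx : x ∈ ball x₀ r) :
    f (x, 0) = f (x₀, 0) := by
  have hr : 0 < r := pos_of_mem_ball hx
  have hop : IsOpen (ball x₀ r ×ˢ ball (0 : ℂ) r) := isOpen_ball.prod isOpen_ball
  have hd : ∀ x ∈ ball x₀ r, HasDerivAt (fun x => f (x, 0)) 0 x := by
    intro x hx
    have hm : (x, (0 : ℂ)) ∈ ball x₀ r ×ˢ ball (0 : ℂ) r := ⟨hx, mem_ball_self hr⟩
    have h1 := ((hf _ hm).differentiableAt (hop.mem_nhds hm)).hasFDerivAt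
    have h2 : HasDerivAt (fun x : ℂ => (x, (0 : ℂ))) (1, 0) x :=
      (hasDerivAt_id x).prodMk (hasDerivAt_const x 0)
    have h3 := h1.comp_hasDerivAt x h2
    rw [h0 x hx] at h3
    exact h3
  exact (convex_ball x₀ r).is_const_of_fderivWithin_eq_zero (𝕜 := ℂ) (f := fun x => f (x, 0))
    (fun x hx => (hd x hx).differentiableAt.differentiableWithinAt)
    (fun x hx => by
      rw [fderivWithin_of_isOpen isOpen_ball hx]
      have h4 := (hd x hx).hasFDerivAt.fderiv
      rw [h4]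
      ext
      simp) hx (mem_ball_self hr)

end Pool.Agent.Immers
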