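import Pool.Agent.Lib.MP_fcd94d_an.Step
import Pool.Agent.Lib.MP_fcd94d_an.Factor
import Pool.Agent.Lib.MP_fcd94d_an.Limit

/-!
The main construction: a holomorphic function `g` with `V g` without zeros.
-/

set_option linter.unusedSectionVars false

open Complex Metric Set Filter Topology
open scoped Manifold

namespace Pool.Agent.Immers

variable {M : Type} [TopologicalSpace M] [ChartedSpace E2 M] [IsManifold 𝓘(ℂ, E2) 1 M]

/-- the limit of the construction -/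
theorem final_limit {V : (p : M) → TangentSpace 𝓘(ℂ, E2) p} {K : ℕ → Set M} (hKm : Monotone K)
    (hKn : ∀ p, ∃ m, K m ∈ 𝓝 p) {F : ℕ → M → ℂ}
    (hF : ∀ n, MDifferentiable 𝓘(ℂ, E2) 𝓘(ℂ, ℂ) (F n))
    (hs : ∀ n, ∀ p ∈ K n, ‖F (n + 1) p - F n p‖ ≤ (1 / 2 : ℝ) ^ n ∧
      ∃ κ : ℂ, ‖κ‖ ≤ (1 / 2 : ℝ) ^ n ∧ dV V (F (n + 1)) p = exp κ * dV V (F n) p)
    (hne : ∀ p, ∃ m, p ∈ K m ∧ dV V (F m) p ≠ 0) :
    ∃ g : M → ℂ, MDifferentiable 𝓘(ℂ, E2) 𝓘(ℂ, ℂ) g ∧ ∀ p, dV V g p ≠ 0 := by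
  obtain ⟨g, hg, hg'⟩ := exists_limit hKm hKn hF (fun n p hp => (hs n p hp).1)
  refine ⟨g, hg, fun p => ?_⟩
  obtain ⟨m, hpm, hpos⟩ := hne p
  have hlow : ∀ j : ℕ, ∃ κ : ℂ, ‖κ‖ ≤ 2 - 2 * (1 / 2 : ℝ) ^ j ∧
      dV V (F (m + j)) p = exp κ * dV V (F m) p := by
    intro j
    induction j with
    | zero => exact ⟨0, by norm_num, by simp⟩
    | succ j ih =>
      obtain ⟨κ, h1, h2⟩ := ih
      obtain ⟨κ', h3, h4⟩ := (hs (m + j) p (hKm (Nat.le_add_right m j) hpm)).2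
      refine ⟨κ' + κ, ?_, ?_⟩
      · refine (norm_add_le _ _).trans ?_
        have h5 : (1 / 2 : ℝ) ^ (m + j) ≤ (1 / 2 : ℝ) ^ j :=
          pow_le_pow_of_le_one (by norm_num) (by norm_num) (Nat.le_add_left j m)
        have h6 : (1 / 2 : ℝ) ^ (j + 1) = (1 / 2 : ℝ) ^ j / 2 := by ring
        rw [h6]
        linarith
      · rw [exp_add, mul_assoc, ← h2, ← h4]
        rfl
  have hbound : ∀ j : ℕ, Real.exp (-2) * ‖dV V (F m) p‖ ≤ ‖dV V (F (m + j)) p‖ := by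
    intro j
    obtain ⟨κ, h1, h2⟩ := hlow j
    rw [h2, norm_mul, Complex.norm_exp]
    apply mul_le_mul_of_nonneg_right _ (norm_nonneg _)
    apply Real.exp_le_exp.2
    have h3 : |κ.re| ≤ ‖κ‖ := Complex.abs_re_le_norm κ
    have h4 : (0 : ℝ) ≤ (1 / 2 : ℝ) ^ j := by positivity
    have h5 := neg_abs_le κ.re
    linarith
  have hlim : Tendsto (fun j => ‖dV V (F (m + j)) p‖) atTop (𝓝 ‖dV V g p‖) := by
    have h1 := (hg' V p).norm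
    have h2 := (tendsto_add_atTop_iff_nat (f := fun n => ‖dV V (F n) p‖) m).2 h1
    refine h2.congr fun j => ?_
    rw [add_comm j m]
  have hge : Real.exp (-2) * ‖dV V (F m) p‖ ≤ ‖dV V g p‖ :=
    ge_of_tendsto' hlim hbound
  intro h7
  rw [h7, norm_zero] at hge
  have h8 : 0 < Real.exp (-2) * ‖dV V (F m) p‖ :=
    mul_pos (Real.exp_pos _) (norm_pos_iff.2 hpos)
  linarith

/-- the standing assumptions: `x` has no critical points, `V` is a continuous vector field without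
zeros, tangent to the fibres of `x` -/
structure Setup (x : M → ℂ) (V : (p : M) → TangentSpace 𝓘(ℂ, E2) p) : Prop where
  hx : MDifferentiable 𝓘(ℂ, E2) 𝓘(ℂ, ℂ) x
  hdx : ∀ p, mfderiv 𝓘(ℂ, E2) 𝓘(ℂ, ℂ) x p ≠ 0
  hV : Continuous (fun p => (⟨p, V p⟩ : TangentBundle 𝓘(ℂ, E2) M))
  hV0 : ∀ p, V p ≠ 0
  hVx : ∀ p, dV V x p = 0

/-- the states of the construction -/
structure Good (V : (p : M) → TangentSpace 𝓘(ℂ, E2) p) (x : M → ℂ) (c₀ : ℂ) (K : Set M)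
    (P f : M → ℂ) (Q : ℂ → ℂ) : Prop where
  hf : MDifferentiable 𝓘(ℂ, E2) 𝓘(ℂ, ℂ) f
  hQ : Differentiable ℂ Q
  hQ0 : Q c₀ ≠ 0
  hfin : ∀ a, Q a = 0 → Finite (ConnectedComponents {p : M | x p = a})
  hK : ∀ a, Q a = 0 → ∀ p ∈ K, ‖x p‖ < ‖a‖
  hu : ∃ u : M → ℂ, Continuous u ∧ (∀ p, u p ≠ 0) ∧ ∀ p, dV V f p = u p * (Q (x p) * P p)

variable {V : (p : M) → TangentSpace 𝓘(ℂ, E2) p} {x : M → ℂ} (S : Setup x V)
include S

/-- the factor at `a` -/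
theorem Setup.factor (a : ℂ) (hfin : Finite (ConnectedComponents {p : M | x p = a})) {K : Set M}
    (hK : ∀ p ∈ K, ‖x p‖ < ‖a‖) : ∃ (b : ℂ) (q : M → ℂ), b ≠ 0 ∧ QSetup V q ∧
      (∀ p, x p - a = b * q p) ∧ ∀ p ∈ K, ‖1 - q p‖ < 1 := by
  have gen : ∀ b : ℂ, b ≠ 0 → QSetup V (fun p => b⁻¹ * (x p - a)) := by
    intro b hb
    have hE : Differentiable ℂ (fun c : ℂ => b⁻¹ * (c - a)) :=
      (differentiable_id.sub_const a).const_mul _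
    have hqd : ∀ p, HasMFDerivAt 𝓘(ℂ, E2) 𝓘(ℂ, ℂ) (fun p => b⁻¹ * (x p - a)) p
        (b⁻¹ • mfderiv 𝓘(ℂ, E2) 𝓘(ℂ, ℂ) x p) := by
      intro p
      have h1 := (S.hx p).hasMFDerivAt
      have h2 : HasMFDerivAt 𝓘(ℂ, E2) 𝓘(ℂ, ℂ) (fun p => x p - a) p
          (mfderiv 𝓘(ℂ, E2) 𝓘(ℂ, ℂ) x p) := ⟨h1.1.sub continuousAt_const, h1.2.sub_const a⟩
      exact h2.const_smul b⁻¹
    refine ⟨mdiff_comp1 S.hx hE, dV_first S.hx S.hVx hE, fun p _ h => ?_, ?_⟩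
    · rw [(hqd p).mfderiv] at h
      exact S.hdx p ((smul_eq_zero.1 h).resolve_left (inv_ne_zero hb))
    · have h3 : {p : M | b⁻¹ * (x p - a) = 0} = {p : M | x p = a} := by
        ext p
        show b⁻¹ * (x p - a) = 0 ↔ x p = a
        simp only [mul_eq_zero, inv_eq_zero, hb, false_or, sub_eq_zero]
      rw [h3]
      exact hfin
  by_cases ha : a = 0
  · refine ⟨1, _, one_ne_zero, gen 1 one_ne_zero, fun p => ?_, fun p hp => ?_⟩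
    · rw [inv_one, one_mul, one_mul]
    · have h1 := hK p hp
      rw [ha, norm_zero] at h1
      exact absurd h1 (not_lt.2 (norm_nonneg _))
  · refine ⟨-a, _, neg_ne_zero.2 ha, gen (-a) (neg_ne_zero.2 ha), fun p => ?_, fun p hp => ?_⟩
    · rw [← mul_assoc, mul_inv_cancel₀ (neg_ne_zero.2 ha), one_mul]
    · have h2 : 1 - (-a)⁻¹ * (x p - a) = x p / a := by
        field_simp
        ring
      rw [h2, norm_div]
      exact (div_lt_one (norm_pos_iff.2 ha)).2 (hK p hp)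

/-- removing several zeros -/
theorem step_list {P : M → ℂ} (hP : Continuous P) {K : Set M} (hK : IsCompact K)
    (L : List ℂ) : ∀ {f : M → ℂ}, MDifferentiable 𝓘(ℂ, E2) 𝓘(ℂ, ℂ) f → ∀ {u : M → ℂ},
    Continuous u → (∀ p, u p ≠ 0) →
    (∀ p, dV V f p = u p * ((L.map (fun a => x p - a)).prod * P p)) →
    (∀ a ∈ L, Finite (ConnectedComponents {p : M | x p = a})) →
    (∀ a ∈ L, ∀ p ∈ K, ‖x p‖ < ‖a‖) → ∀ {ε : ℝ}, 0 < ε →
    ∃ f' : M → ℂ, MDifferentiable 𝓘(ℂ, E2) 𝓘(ℂ, ℂ) f' ∧ ∃ u' : M → ℂ, Continuous u' ∧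
      (∀ p, u' p ≠ 0) ∧ (∀ p, dV V f' p = u' p * P p) ∧
      ∀ p ∈ K, ‖f' p - f p‖ ≤ ε ∧ ∃ κ : ℂ, ‖κ‖ ≤ ε ∧ dV V f' p = exp κ * dV V f p := by
  induction L with
  | nil =>
    intro f hf u hu hu0 hVf _ _ ε hε
    refine ⟨f, hf, u, hu, hu0, fun p => ?_, fun p _ => ⟨?_, 0, ?_, ?_⟩⟩
    · rw [hVf]
      simp
    · simp [hε.le]
    · simp [hε.le]
    · simp
  | cons a L ih =>
    intro f hf u hu hu0 hVf hfin hKa ε hε
    have hcx : Continuous x := S.hx.continuous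
    obtain ⟨b, q, hb, hq, hqx, hKq⟩ := S.factor a (hfin a List.mem_cons_self)
      (hKa a List.mem_cons_self)
    have hc : Continuous (fun p : M => (L.map (fun a => x p - a)).prod * P p) := by
      apply Continuous.mul _ hP
      apply continuous_list_prod
      intro b _
      exact hcx.sub continuous_const
    obtain ⟨f₁, hf₁, u₁, hu₁, hu₁0, h1, h2⟩ := step_one ⟨S.hV, S.hV0⟩ hq hf hc
      (u := fun p => u p * b) (hu.mul continuous_const) (fun p => mul_ne_zero (hu0 p) hb) (by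
      intro p
      rw [hVf, List.map_cons, List.prod_cons, hqx]
      ring) hK hKq (half_pos hε)
    obtain ⟨f₂, hf₂, u₂, hu₂, hu₂0, h3, h4⟩ := ih hf₁ hu₁ hu₁0 h1
      (fun b hb => hfin b (List.mem_cons_of_mem _ hb))
      (fun b hb => hKa b (List.mem_cons_of_mem _ hb)) (half_pos hε)
    refine ⟨f₂, hf₂, u₂, hu₂, hu₂0, h3, fun p hp => ?_⟩
    obtain ⟨e1, κ₁, e2, e3⟩ := h2 p hp
    obtain ⟨e4, κ₂, e5, e6⟩ := h4 p hp
    refine ⟨?_, κ₂ + κ₁, ?_, ?_⟩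
    · have e7 : f₂ p - f p = (f₂ p - f₁ p) + (f₁ p - f p) := by ring
      rw [e7]
      refine (norm_add_le _ _).trans ?_
      linarith
    · refine (norm_add_le _ _).trans ?_
      linarith
    · rw [e6, e3, exp_add]
      ring

/-- one step of the construction: the zeros of `Q` in a disc and the factor `q` are removed -/
theorem good_step {c₀ : ℂ} {K K' : Set M} (hK : IsCompact K) (hK' : IsCompact K')
    {f : M → ℂ} {Q : ℂ → ℂ} {q P P' : M → ℂ} (hq : QSetup V q) (hP : Continuous P)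
    (hP' : Continuous P') (hPq : ∀ p, P p = q p * P' p) (hKq : ∀ p ∈ K, ‖1 - q p‖ < 1)
    (h : Good V x c₀ K P f Q) {ε : ℝ} (hε : 0 < ε) :
    ∃ (f' : M → ℂ) (Q' : ℂ → ℂ), Good V x c₀ K' P' f' Q' ∧
      ∀ p ∈ K, ‖f' p - f p‖ ≤ ε ∧ ∃ κ : ℂ, ‖κ‖ ≤ ε ∧ dV V f' p = exp κ * dV V f p := by
  have hcx : Continuous x := S.hx.continuous
  obtain ⟨R, hR⟩ : ∃ R : ℝ, ∀ p ∈ K', ‖x p‖ ≤ R := by
    obtain ⟨R, hR⟩ := (hK'.image hcx.norm).bddAbove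
    exact ⟨R, fun p hp => hR ⟨p, hp, rfl⟩⟩
  obtain ⟨L, Q', hQ', h1, h2, h3⟩ := exists_factor h.hQ h.hQ0 R
  obtain ⟨u, hu, hu0, hVf⟩ := h.hu
  obtain ⟨f₁, hf₁, u₁, hu₁, hu₁0, h4, h5⟩ := step_list S (P := fun p => Q' (x p) * P p)
    ((hQ'.continuous.comp hcx).mul hP) hK L h.hf hu hu0
    (fun p => by rw [hVf, h3, mul_assoc]) (fun a ha => h.hfin a (h2 a ha))
    (fun a ha => h.hK a (h2 a ha)) (half_pos hε)
  obtain ⟨f₂, hf₂, u₂, hu₂, hu₂0, h6, h7⟩ := step_one ⟨S.hV, S.hV0⟩ hq hf₁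
    (P := fun p => Q' (x p) * P' p) ((hQ'.continuous.comp hcx).mul hP') hu₁ hu₁0
    (fun p => by rw [h4, hPq]; ring) hK hKq (half_pos hε)
  refine ⟨f₂, Q', ⟨hf₂, hQ', ?_, ?_, ?_, u₂, hu₂, hu₂0, h6⟩, fun p hp => ?_⟩
  · intro h0
    apply h.hQ0
    rw [h3, h0, mul_zero]
  · intro a ha
    apply h.hfin a
    rw [h3, ha, mul_zero]
  · intro a ha p hp
    have h6 : R < ‖a‖ := by
      by_contra h7
      exact h1 a (not_lt.1 h7) ha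
    exact lt_of_le_of_lt (hR p hp) h6
  · obtain ⟨e1, κ₁, e2, e3⟩ := h5 p hp
    obtain ⟨e4, κ₂, e5, e6⟩ := h7 p hp
    refine ⟨?_, κ₂ + κ₁, ?_, ?_⟩
    · have e7 : f₂ p - f p = (f₂ p - f₁ p) + (f₁ p - f p) := by ring
      rw [e7]
      refine (norm_add_le _ _).trans ?_
      linarith
    · refine (norm_add_le _ _).trans ?_
      linarith
    · rw [e6, e3, exp_add]
      ring

/-- The main construction: `V z` is the product of a function without zeros, of `Q (x)`, where `Q`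
is an entire function, and of first integrals `q n`; here `P n` is the product of the factors
`q k`, `n ≤ k`. -/
theorem exists_of_seq [SigmaCompactSpace M] [WeaklyLocallyCompactSpace M]
    {Q : ℂ → ℂ} (hQ : Differentiable ℂ Q) {c₀ : ℂ} (hQ0 : Q c₀ ≠ 0)
    (hfin : ∀ a, Q a = 0 → Finite (ConnectedComponents {p : M | x p = a}))
    {q : ℕ → M → ℂ} (hq : ∀ n, QSetup V (q n)) {P : ℕ → M → ℂ} (hP : ∀ n, Continuous (P n))
    (hPq : ∀ n p, P n p = q n p * P (n + 1) p) (hPne : ∀ p, ∃ n, P n p ≠ 0)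
    (hlim : ∀ K : Set M, IsCompact K → ∀ᶠ n in atTop, ∀ p ∈ K, ‖1 - q n p‖ < 1)
    {z : M → ℂ} (hz : MDifferentiable 𝓘(ℂ, E2) 𝓘(ℂ, ℂ) z) {u : M → ℂ} (hu : Continuous u)
    (hu0 : ∀ p, u p ≠ 0) (hVz : ∀ p, dV V z p = u p * (Q (x p) * P 0 p)) :
    ∃ g : M → ℂ, MDifferentiable 𝓘(ℂ, E2) 𝓘(ℂ, ℂ) g ∧ ∀ p, dV V g p ≠ 0 := by
  classical
  set E : CompactExhaustion M := default with hE
  let I : ℕ → Finset ℕ := fun n =>
    (Finset.range n).filter (fun j => ∀ m, n ≤ m → ∀ p ∈ E j, ‖1 - q m p‖ < 1)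
  let K : ℕ → Set M := fun n => ⋃ j ∈ I n, E j
  have hKc : ∀ n, IsCompact (K n) := fun n => (I n).isCompact_biUnion fun j _ => E.isCompact j
  have hKm : Monotone K := by
    intro n n' hnn'
    apply Set.biUnion_subset_biUnion_left
    intro j hj
    have hj' := Finset.mem_filter.1 (Finset.mem_coe.1 hj)
    apply Finset.mem_coe.2
    apply Finset.mem_filter.2
    refine ⟨Finset.mem_range.2 ?_, fun m hm => hj'.2 m (hnn'.trans hm)⟩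
    have := Finset.mem_range.1 hj'.1
    omega
  have hKn : ∀ p, ∃ m, K m ∈ 𝓝 p := by
    intro p
    obtain ⟨n, hn⟩ := E.exists_mem_nhds p
    obtain ⟨N, hN⟩ := Filter.eventually_atTop.1 (hlim (E n) (E.isCompact n))
    refine ⟨max (n + 1) N, Filter.mem_of_superset hn ?_⟩
    apply Set.subset_biUnion_of_mem (u := fun j => (E j : Set M))
    apply Finset.mem_coe.2
    apply Finset.mem_filter.2
    refine ⟨Finset.mem_range.2 (by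
      have := le_max_left (n + 1) N
      omega), fun m hm => hN m ((le_max_right (n + 1) N).trans hm)⟩
  have hKq : ∀ n, ∀ p ∈ K n, ‖1 - q n p‖ < 1 := by
    intro n p hp
    obtain ⟨j, hj, hpj⟩ := Set.mem_iUnion₂.1 hp
    exact (Finset.mem_filter.1 hj).2 n le_rfl p hpj
  have hK0 : ∀ p, p ∉ K 0 := by
    intro p hp
    obtain ⟨j, hj, hpj⟩ := Set.mem_iUnion₂.1 hp
    exact absurd (Finset.mem_range.1 (Finset.mem_filter.1 hj).1) (Nat.not_lt_zero j)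
  let St : ℕ → Type := fun n => {s : (M → ℂ) × (ℂ → ℂ) // Good V x c₀ (K n) (P n) s.1 s.2}
  have h0 : Good V x c₀ (K 0) (P 0) z Q :=
    ⟨hz, hQ, hQ0, hfin, fun a _ p hp => absurd hp (hK0 p), u, hu, hu0, hVz⟩
  have hstep : ∀ (n : ℕ) (s : St n), ∃ s' : St (n + 1), ∀ p ∈ K n,
      ‖s'.1.1 p - s.1.1 p‖ ≤ (1 / 2 : ℝ) ^ n ∧ ∃ κ : ℂ, ‖κ‖ ≤ (1 / 2 : ℝ) ^ n ∧
        dV V s'.1.1 p = exp κ * dV V s.1.1 p := by
    intro n s
    obtain ⟨f', Q', h1, h2⟩ := good_step S (hKc n) (hKc (n + 1)) (hq n) (hP n) (hP (n + 1))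
      (hPq n) (hKq n) s.2 (ε := (1 / 2 : ℝ) ^ n) (by positivity)
    exact ⟨⟨(f', Q'), h1⟩, h2⟩
  choose nxt hnxt using hstep
  let F : (n : ℕ) → St n := fun n => Nat.rec ⟨(z, Q), h0⟩ (fun n s => nxt n s) n
  have hF : ∀ n, ∀ p ∈ K n, ‖(F (n + 1)).1.1 p - (F n).1.1 p‖ ≤ (1 / 2 : ℝ) ^ n ∧
      ∃ κ : ℂ, ‖κ‖ ≤ (1 / 2 : ℝ) ^ n ∧ dV V (F (n + 1)).1.1 p = exp κ * dV V (F n).1.1 p :=
    fun n => hnxt n (F n)
  refine final_limit hKm hKn (F := fun n => (F n).1.1) (fun n => (F n).2.hf) hF fun p => ?_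
  obtain ⟨n₀, hn₀⟩ := hPne p
  have hn₁ : ∀ j, P (n₀ + j) p ≠ 0 := by
    intro j
    induction j with
    | zero => exact hn₀
    | succ j ih =>
      intro h
      apply ih
      rw [hPq]
      have h' : P (n₀ + j + 1) p = 0 := h
      rw [h', mul_zero]
  obtain ⟨m, hm⟩ := hKn p
  have hpm : p ∈ K (n₀ + m) := hKm (Nat.le_add_left m n₀) (mem_of_mem_nhds hm)
  refine ⟨n₀ + m, hpm, ?_⟩
  obtain ⟨v, -, hv0, hv⟩ := (F (n₀ + m)).2.hu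
  rw [hv]
  refine mul_ne_zero (hv0 p) (mul_ne_zero (fun h1 => ?_) (hn₁ m))
  exact lt_irrefl _ ((F (n₀ + m)).2.hK _ h1 p hpm)

theorem immersion_aux {g : M → ℂ} (hVg : ∀ p, dV V g p ≠ 0) (p : M)
    (v : TangentSpace 𝓘(ℂ, E2) p)
    (hv : T2.symm (((mfderiv 𝓘(ℂ, E2) 𝓘(ℂ, ℂ) x p).prod
      (mfderiv 𝓘(ℂ, E2) 𝓘(ℂ, ℂ) g p)) v) = 0) : v = 0 := by
  have h3 : ((mfderiv 𝓘(ℂ, E2) 𝓘(ℂ, ℂ) x p).prod (mfderiv 𝓘(ℂ, E2) 𝓘(ℂ, ℂ) g p)) v = 0 := by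
    have h4 : T2.symm (((mfderiv 𝓘(ℂ, E2) 𝓘(ℂ, ℂ) x p).prod
      (mfderiv 𝓘(ℂ, E2) 𝓘(ℂ, ℂ) g p)) v) = 0 := hv
    exact (map_eq_zero_iff T2.symm T2.symm.injective).1 h4
  have hxv : mfderiv 𝓘(ℂ, E2) 𝓘(ℂ, ℂ) x p v = 0 := congrArg Prod.fst h3
  have hgv : mfderiv 𝓘(ℂ, E2) 𝓘(ℂ, ℂ) g p v = 0 := congrArg Prod.snd h3
  -- the kernel of `dx` is spanned by `V p`
  let A : E2 →ₗ[ℂ] ℂ := (mfderiv 𝓘(ℂ, E2) 𝓘(ℂ, ℂ) x p : E2 →L[ℂ] ℂ).toLinearMap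
  have hA : A ≠ 0 := by
    intro h
    apply S.hdx p
    ext w
    exact congrArg (fun B => B w) h
  have hrange : LinearMap.range A = ⊤ := LinearMap.range_eq_top.2 (LinearMap.surjective hA)
  have hrk := LinearMap.finrank_range_add_finrank_ker A
  rw [hrange, finrank_top, Module.finrank_self, finrank_euclideanSpace_fin] at hrk
  have hker : Module.finrank ℂ (LinearMap.ker A) = 1 := by omega
  let w₀ : LinearMap.ker A := ⟨V p, S.hVx p⟩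
  have hw₀ : w₀ ≠ 0 := by
    intro h
    exact S.hV0 p (congrArg Subtype.val h)
  obtain ⟨c, hc⟩ := (finrank_eq_one_iff_of_nonzero' w₀ hw₀).1 hker ⟨v, hxv⟩
  have hc' : c • V p = v := congrArg Subtype.val hc
  have h5 : c * dV V g p = 0 := by
    have h6 : mfderiv 𝓘(ℂ, E2) 𝓘(ℂ, ℂ) g p (c • V p) = 0 := by
      rw [hc']
      exact hgv
    rw [map_smul] at h6
    exact h6
  have h7 : c = 0 := (mul_eq_zero.1 h5).resolve_right (hVg p)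
  rw [← hc', h7, zero_smul]

omit S in
/-- two functions giving an immersion -/
theorem immersion_of (S : Setup x V) {g : M → ℂ} (hg : MDifferentiable 𝓘(ℂ, E2) 𝓘(ℂ, ℂ) g)
    (hVg : ∀ p, dV V g p ≠ 0) :
    MDifferentiable 𝓘(ℂ, E2) 𝓘(ℂ, E2) (fun p => T2.symm (x p, g p)) ∧
      ∀ p, Function.Injective (mfderiv 𝓘(ℂ, E2) 𝓘(ℂ, E2) (fun p => T2.symm (x p, g p)) p) := by
  have hd : ∀ p, HasMFDerivAt 𝓘(ℂ, E2) 𝓘(ℂ, E2) (fun p => T2.symm (x p, g p)) p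
      ((T2.symm : ℂ × ℂ →L[ℂ] E2).comp
        ((mfderiv 𝓘(ℂ, E2) 𝓘(ℂ, ℂ) x p).prod (mfderiv 𝓘(ℂ, E2) 𝓘(ℂ, ℂ) g p))) := by
    intro p
    have hx' := (S.hx p).hasMFDerivAt
    have hg' := (hg p).hasMFDerivAt
    have h2 : HasMFDerivAt 𝓘(ℂ, E2) 𝓘(ℂ, ℂ × ℂ) (fun p => (x p, g p)) p
        ((mfderiv 𝓘(ℂ, E2) 𝓘(ℂ, ℂ) x p).prod (mfderiv 𝓘(ℂ, E2) 𝓘(ℂ, ℂ) g p)) :=
      ⟨hx'.1.prodMk hg'.1, hx'.2.prodMk hg'.2⟩
    have h1 : HasMFDerivAt 𝓘(ℂ, ℂ × ℂ) 𝓘(ℂ, E2) T2.symm (x p, g p)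
        (T2.symm : ℂ × ℂ →L[ℂ] E2) :=
      (T2.symm : (ℂ × ℂ) ≃L[ℂ] E2).hasFDerivAt.hasMFDerivAt
    exact HasMFDerivAt.comp p h1 h2
  refine ⟨fun p => (hd p).mdifferentiableAt, fun p => ?_⟩
  have inj0 : ∀ v, mfderiv 𝓘(ℂ, E2) 𝓘(ℂ, E2) (fun p => T2.symm (x p, g p)) p v = 0 → v = 0 := by
    intro v hv
    rw [(hd p).mfderiv] at hv
    exact immersion_aux S hVg p v hv
  intro v w hvw
  apply sub_eq_zero.1
  apply inj0
  rw [map_sub, hvw, sub_self]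

end Pool.Agent.Immers
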