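import Pool.Agent.Lib.MP_fcd94d_an.Loc

/-!
Lemmas on complex surfaces: straight charts, division, functions constant on connected components
of a zero set, continuity of derivatives along continuous vector fields.
-/

set_option linter.unusedSectionVars false

open Complex Metric Set Filter Topology
open scoped Manifold

namespace Pool.Agent.Immers

/-- the model space -/
abbrev E2 : Type := EuclideanSpace ℂ (Fin 2)

/-- the model space as a product -/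
noncomputable def T2 : E2 ≃L[ℂ] ℂ × ℂ :=
  (EuclideanSpace.equiv (Fin 2) ℂ).trans (ContinuousLinearEquiv.finTwoArrow ℂ ℂ)

variable {M : Type} [TopologicalSpace M] [ChartedSpace E2 M] [IsManifold 𝓘(ℂ, E2) 1 M]

/-- holomorphic chart with values in `ℂ × ℂ` -/
structure IsHC (e : OpenPartialHomeomorph M (ℂ × ℂ)) : Prop where
  d1 : MDifferentiableOn 𝓘(ℂ, E2) 𝓘(ℂ, ℂ × ℂ) e e.source
  d2 : MDifferentiableOn 𝓘(ℂ, ℂ × ℂ) 𝓘(ℂ, E2) e.symm e.target

theorem exists_chart (p : M) : ∃ e : OpenPartialHomeomorph M (ℂ × ℂ), p ∈ e.source ∧ IsHC e := by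
  refine ⟨(chartAt E2 p).transHomeomorph T2.toHomeomorph, mem_chart_source E2 p, ?_, ?_⟩
  · have h1 : MDifferentiableOn 𝓘(ℂ, E2) 𝓘(ℂ, E2) (chartAt E2 p) (chartAt E2 p).source :=
      mdifferentiableOn_atlas (chart_mem_atlas E2 p)
    have h2 : MDifferentiable 𝓘(ℂ, E2) 𝓘(ℂ, ℂ × ℂ) T2 :=
      T2.differentiable.mdifferentiable
    exact h2.comp_mdifferentiableOn h1
  · have h1 : MDifferentiableOn 𝓘(ℂ, E2) 𝓘(ℂ, E2) (chartAt E2 p).symm (chartAt E2 p).target :=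
      mdifferentiableOn_atlas_symm (chart_mem_atlas E2 p)
    have h2 : MDifferentiable 𝓘(ℂ, ℂ × ℂ) 𝓘(ℂ, E2) T2.symm :=
      T2.symm.differentiable.mdifferentiable
    exact h1.comp h2.mdifferentiableOn fun w hw => hw

variable {e : OpenPartialHomeomorph M (ℂ × ℂ)} (he : IsHC e)
include he

theorem IsHC.trans (e₁ : OpenPartialHomeomorph (ℂ × ℂ) (ℂ × ℂ))
    (h1 : DifferentiableOn ℂ e₁ e₁.source) (h2 : DifferentiableOn ℂ e₁.symm e₁.target) :
    IsHC (e.trans e₁) := by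
  refine ⟨?_, ?_⟩
  · rw [OpenPartialHomeomorph.coe_trans]
    have h3 : MDifferentiableOn 𝓘(ℂ, ℂ × ℂ) 𝓘(ℂ, ℂ × ℂ) e₁ e₁.source := h1.mdifferentiableOn
    refine h3.comp (he.d1.mono ?_) ?_
    · intro w hw
      exact (e.trans_source e₁ ▸ hw).1
    · intro w hw
      exact (e.trans_source e₁ ▸ hw).2
  · rw [OpenPartialHomeomorph.coe_trans_symm]
    have h3 : MDifferentiableOn 𝓘(ℂ, ℂ × ℂ) 𝓘(ℂ, ℂ × ℂ) e₁.symm e₁.target := h2.mdifferentiableOn
    refine he.d2.comp (h3.mono ?_) ?_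
    · intro w hw
      exact (e.trans_target e₁ ▸ hw).1
    · intro w hw
      exact (e.trans_target e₁ ▸ hw).2

theorem IsHC.fun_diff {f : M → ℂ} (hf : MDifferentiable 𝓘(ℂ, E2) 𝓘(ℂ, ℂ) f) :
    DifferentiableOn ℂ (f ∘ e.symm) e.target := by
  rw [← mdifferentiableOn_iff_differentiableOn]
  exact hf.comp_mdifferentiableOn he.d2

theorem IsHC.fun_mdiff {g : ℂ × ℂ → ℂ} {O : Set (ℂ × ℂ)} (hO : IsOpen O)
    (hg : DifferentiableOn ℂ g O) {p : M} (hp : p ∈ e.source) (hpO : e p ∈ O) :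
    MDifferentiableAt 𝓘(ℂ, E2) 𝓘(ℂ, ℂ) (g ∘ e) p := by
  have h1 : MDifferentiableAt 𝓘(ℂ, E2) 𝓘(ℂ, ℂ × ℂ) e p :=
    (he.d1 p hp).mdifferentiableAt (e.open_source.mem_nhds hp)
  have h2 : MDifferentiableAt 𝓘(ℂ, ℂ × ℂ) 𝓘(ℂ, ℂ) g (e p) :=
    ((hg _ hpO).differentiableAt (hO.mem_nhds hpO)).mdifferentiableAt
  exact h2.comp p h1

/-- the derivative in the chart -/
theorem IsHC.deriv_eq {f : M → ℂ} (hf : MDifferentiable 𝓘(ℂ, E2) 𝓘(ℂ, ℂ) f) {p : M}
    (hp : p ∈ e.source) (v : TangentSpace 𝓘(ℂ, E2) p) :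
    mfderiv 𝓘(ℂ, E2) 𝓘(ℂ, ℂ) f p v =
      fderiv ℂ (f ∘ e.symm) (e p) (mfderiv 𝓘(ℂ, E2) 𝓘(ℂ, ℂ × ℂ) e p v) := by
  have h1 : MDifferentiableAt 𝓘(ℂ, E2) 𝓘(ℂ, ℂ × ℂ) e p :=
    (he.d1 p hp).mdifferentiableAt (e.open_source.mem_nhds hp)
  have ht : e p ∈ e.target := e.map_source hp
  have h2 : DifferentiableAt ℂ (f ∘ e.symm) (e p) :=
    (he.fun_diff hf _ ht).differentiableAt (e.open_target.mem_nhds ht)
  have h3 : f =ᶠ[𝓝 p] (f ∘ e.symm) ∘ e := by
    filter_upwards [e.open_source.mem_nhds hp] with y hy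
    simp [e.left_inv hy]
  rw [h3.mfderiv_eq, mfderiv_comp p h2.mdifferentiableAt h1]
  rw [← mfderiv_eq_fderiv]
  rfl

theorem IsHC.inj {p : M} (hp : p ∈ e.source) :
    Function.Injective (mfderiv 𝓘(ℂ, E2) 𝓘(ℂ, ℂ × ℂ) e p) := by
  have h1 : MDifferentiableAt 𝓘(ℂ, E2) 𝓘(ℂ, ℂ × ℂ) e p :=
    (he.d1 p hp).mdifferentiableAt (e.open_source.mem_nhds hp)
  have ht : e p ∈ e.target := e.map_source hp
  have h2 : MDifferentiableAt 𝓘(ℂ, ℂ × ℂ) 𝓘(ℂ, E2) e.symm (e p) :=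
    (he.d2 _ ht).mdifferentiableAt (e.open_target.mem_nhds ht)
  have h3 : (e.symm ∘ e) =ᶠ[𝓝 p] id := by
    filter_upwards [e.open_source.mem_nhds hp] with y hy
    exact e.left_inv hy
  have h4 := mfderiv_comp p h2 h1
  rw [h3.mfderiv_eq, mfderiv_id] at h4
  intro v w hvw
  have h5 : v = mfderiv 𝓘(ℂ, ℂ × ℂ) 𝓘(ℂ, E2) e.symm (e p)
      (mfderiv 𝓘(ℂ, E2) 𝓘(ℂ, ℂ × ℂ) e p v) := congrArg (fun A => A v) h4
  have h6 : w = mfderiv 𝓘(ℂ, ℂ × ℂ) 𝓘(ℂ, E2) e.symm (e p)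
      (mfderiv 𝓘(ℂ, E2) 𝓘(ℂ, ℂ × ℂ) e p w) := congrArg (fun A => A w) h4
  have h7 : mfderiv 𝓘(ℂ, ℂ × ℂ) 𝓘(ℂ, E2) e.symm (e p)
      (mfderiv 𝓘(ℂ, E2) 𝓘(ℂ, ℂ × ℂ) e p v) = mfderiv 𝓘(ℂ, ℂ × ℂ) 𝓘(ℂ, E2) e.symm (e p)
      (mfderiv 𝓘(ℂ, E2) 𝓘(ℂ, ℂ × ℂ) e p w) := by rw [hvw]
  exact h5.trans (h7.trans h6.symm)

omit he

section
variable {q : M → ℂ} (hq : MDifferentiable 𝓘(ℂ, E2) 𝓘(ℂ, ℂ) q)
include hq

theorem exists_straight (p : M) (hdq : mfderiv 𝓘(ℂ, E2) 𝓘(ℂ, ℂ) q p ≠ 0) :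
    ∃ e : OpenPartialHomeomorph M (ℂ × ℂ), p ∈ e.source ∧ IsHC e ∧
      ∀ p' ∈ e.source, (e p').2 = q p' := by
  obtain ⟨e₀, hp, he₀⟩ := exists_chart p
  have hq' := he₀.fun_diff hq
  obtain ⟨e₁, h1, h2, h3, h4⟩ := straighten e₀.target e₀.open_target (q ∘ e₀.symm) hq' (e₀ p)
    (e₀.map_source hp) (by
      intro h0
      apply hdq
      ext v
      have h5 := he₀.deriv_eq hq hp v
      rw [h0] at h5
      exact h5)
  refine ⟨e₀.trans e₁, ?_, he₀.trans e₁ ?_ ?_, ?_⟩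
  · rw [OpenPartialHomeomorph.trans_source]
    exact ⟨hp, h1⟩
  · intro w hw
    obtain ⟨A, hA, -⟩ := h4 w hw
    exact hA.differentiableAt.differentiableWithinAt
  · intro y hy
    obtain ⟨A, -, hA⟩ := h4 (e₁.symm y) (e₁.map_target hy)
    rw [e₁.right_inv hy] at hA
    exact hA.differentiableAt.differentiableWithinAt
  · intro p' hp'
    rw [OpenPartialHomeomorph.trans_source] at hp'
    rw [OpenPartialHomeomorph.coe_trans, Function.comp_apply, h3 _ hp'.2, Function.comp_apply,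
      e₀.left_inv hp'.1]

/-- points of the zero set are limits of points where `q` does not vanish -/
theorem mem_closure (p : M) (hdq : mfderiv 𝓘(ℂ, E2) 𝓘(ℂ, ℂ) q p ≠ 0) :
    p ∈ closure {y | q y ≠ 0} := by
  by_contra h
  have h1 : ∀ᶠ y in 𝓝 p, q y = 0 := by
    have h2 : (closure {y | q y ≠ 0})ᶜ ∈ 𝓝 p := isClosed_closure.isOpen_compl.mem_nhds h
    filter_upwards [h2] with y hy
    by_contra h3
    exact hy (subset_closure h3)
  apply hdq
  have h4 : q =ᶠ[𝓝 p] fun _ => (0 : ℂ) := h1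
  rw [h4.mfderiv_eq, mfderiv_const]
  rfl

theorem exists_box (p : M) (h0 : q p = 0) (hdq : mfderiv 𝓘(ℂ, E2) 𝓘(ℂ, ℂ) q p ≠ 0) :
    ∃ (e : OpenPartialHomeomorph M (ℂ × ℂ)) (x₀ : ℂ) (r : ℝ), p ∈ e.source ∧ IsHC e ∧
      (∀ p' ∈ e.source, (e p').2 = q p') ∧ 0 < r ∧ e p = (x₀, 0) ∧
      ball x₀ r ×ˢ ball (0 : ℂ) r ⊆ e.target := by
  obtain ⟨e, hp, he, hs⟩ := exists_straight hq p hdq
  have h1 : e p = ((e p).1, 0) := by
    ext
    · rfl
    · rw [hs p hp, h0]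
  obtain ⟨r, hr, hr'⟩ := Metric.mem_nhds_iff.1 (e.open_target.mem_nhds (e.map_source hp))
  refine ⟨e, (e p).1, r, hp, he, hs, hr, h1, ?_⟩
  rw [h1, ← ball_prod_same] at hr'
  exact hr'

/-- local division -/
theorem local_div {h : M → ℂ} (hh : MDifferentiable 𝓘(ℂ, E2) 𝓘(ℂ, ℂ) h)
    (hz : ∀ y, q y = 0 → h y = 0) (p : M) (h0 : q p = 0)
    (hdq : mfderiv 𝓘(ℂ, E2) 𝓘(ℂ, ℂ) q p ≠ 0) :
    ∃ N ∈ 𝓝 p, ∃ g : M → ℂ, (∀ y ∈ N, MDifferentiableAt 𝓘(ℂ, E2) 𝓘(ℂ, ℂ) g y) ∧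
      ∀ y ∈ N, h y = q y * g y := by
  obtain ⟨e, x₀, r, hp, he, hs, hr, hep, hbox⟩ := exists_box hq p h0 hdq
  obtain ⟨g, hg, hg'⟩ := div_coord x₀ r hr (h ∘ e.symm) ((he.fun_diff hh).mono hbox) (by
    intro x hx
    have h1 : (x, (0 : ℂ)) ∈ e.target := hbox ⟨hx, mem_ball_self hr⟩
    apply hz
    rw [← hs _ (e.map_target h1), e.right_inv h1])
  have hop : IsOpen (ball x₀ r ×ˢ ball (0 : ℂ) (r / 2)) := isOpen_ball.prod isOpen_ball
  refine ⟨e.source ∩ e ⁻¹' (ball x₀ r ×ˢ ball (0 : ℂ) (r / 2)), ?_, g ∘ e, ?_, ?_⟩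
  · apply (e.isOpen_inter_preimage hop).mem_nhds
    refine ⟨hp, ?_⟩
    rw [mem_preimage, hep]
    exact ⟨mem_ball_self hr, mem_ball_self (by linarith)⟩
  · intro y hy
    exact he.fun_mdiff hop hg hy.1 hy.2
  · intro y hy
    have h2 := hg' (e y) hy.2
    rw [Function.comp_apply, e.left_inv hy.1, hs y hy.1] at h2
    exact h2

/-- division of holomorphic functions on a complex surface -/
theorem exists_div {h : M → ℂ} (hh : MDifferentiable 𝓘(ℂ, E2) 𝓘(ℂ, ℂ) h)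
    (hz : ∀ y, q y = 0 → h y = 0)
    (hdq : ∀ y, q y = 0 → mfderiv 𝓘(ℂ, E2) 𝓘(ℂ, ℂ) q y ≠ 0) :
    ∃ g : M → ℂ, MDifferentiable 𝓘(ℂ, E2) 𝓘(ℂ, ℂ) g ∧ ∀ y, h y = q y * g y := by
  let g : M → ℂ := fun p => if q p = 0 then limUnder (𝓝[{y | q y ≠ 0}] p) (fun y => h y / q y)
    else h p / q p
  have hg : ∀ p, MDifferentiableAt 𝓘(ℂ, E2) 𝓘(ℂ, ℂ) g p ∧ h p = q p * g p := by
    intro p
    by_cases h0 : q p = 0
    · obtain ⟨N, hN, g₀, hg₀, hg₀'⟩ := local_div hq hh hz p h0 (hdq p h0)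
      have key : ∀ y ∈ interior N, g y = g₀ y := by
        intro y hy
        by_cases hy0 : q y = 0
        · have hne : (𝓝[{y | q y ≠ 0}] y).NeBot :=
            mem_closure_iff_nhdsWithin_neBot.1 (mem_closure hq y (hdq y hy0))
          have ht : Tendsto (fun y => h y / q y) (𝓝[{y | q y ≠ 0}] y) (𝓝 (g₀ y)) := by
            have h1 : Tendsto g₀ (𝓝[{y | q y ≠ 0}] y) (𝓝 (g₀ y)) :=
              (hg₀ y (interior_subset hy)).continuousAt.tendsto.mono_left nhdsWithin_le_nhds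
            refine h1.congr' ?_
            have h2 : ∀ᶠ x in 𝓝[{y | q y ≠ 0}] y, x ∈ interior N :=
              nhdsWithin_le_nhds (isOpen_interior.mem_nhds hy)
            filter_upwards [h2, self_mem_nhdsWithin] with x hx hx'
            rw [hg₀' x (interior_subset hx), mul_div_cancel_left₀ _ hx']
          simp only [g, if_pos hy0]
          exact ht.limUnder_eq
        · simp only [g, if_neg hy0]
          rw [hg₀' y (interior_subset hy), mul_div_cancel_left₀ _ hy0]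
      have hpN : p ∈ interior N := mem_interior_iff_mem_nhds.2 hN
      refine ⟨?_, ?_⟩
      · have h3 : g =ᶠ[𝓝 p] g₀ := by
          filter_upwards [isOpen_interior.mem_nhds hpN] with y hy
          exact key y hy
        exact (hg₀ p (interior_subset hpN)).congr_of_eventuallyEq h3
      · rw [key p hpN]
        exact hg₀' p (interior_subset hpN)
    · have hev : ∀ᶠ y in 𝓝 p, q y ≠ 0 := (hq p).continuousAt.eventually_ne h0
      have h3 : g =ᶠ[𝓝 p] fun y => h y * (q y)⁻¹ := by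
        filter_upwards [hev] with y hy
        simp only [g, if_neg hy, div_eq_mul_inv]
      refine ⟨?_, ?_⟩
      · refine MDifferentiableAt.congr_of_eventuallyEq ?_ h3
        have h4 : MDifferentiableAt 𝓘(ℂ, E2) 𝓘(ℂ, ℂ) (fun y => (q y)⁻¹) p := by
          have h5 : MDifferentiableAt 𝓘(ℂ, ℂ) 𝓘(ℂ, ℂ) (fun w : ℂ => w⁻¹) (q p) :=
            (differentiableAt_inv h0).mdifferentiableAt
          exact h5.comp p (hq p)
        exact (hh p).mul h4
      · simp only [g, if_neg h0]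
        rw [mul_div_cancel₀ _ h0]
  exact ⟨g, fun p => (hg p).1, fun p => (hg p).2⟩

/-- a function whose differential vanishes along the zero set is locally constant on it -/
theorem local_const {z : M → ℂ} (hz : MDifferentiable 𝓘(ℂ, E2) 𝓘(ℂ, ℂ) z)
    (hv : ∀ y, q y = 0 → ∃ v : TangentSpace 𝓘(ℂ, E2) y, v ≠ 0 ∧
      mfderiv 𝓘(ℂ, E2) 𝓘(ℂ, ℂ) q y v = 0 ∧ mfderiv 𝓘(ℂ, E2) 𝓘(ℂ, ℂ) z y v = 0)
    (p : M) (h0 : q p = 0) (hdq : mfderiv 𝓘(ℂ, E2) 𝓘(ℂ, ℂ) q p ≠ 0) :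
    ∀ᶠ y in 𝓝 p, q y = 0 → z y = z p := by
  obtain ⟨e, x₀, r, hp, he, hs, hr, hep, hbox⟩ := exists_box hq p h0 hdq
  have hop : IsOpen (ball x₀ r ×ˢ ball (0 : ℂ) r) := isOpen_ball.prod isOpen_ball
  have hc := const_coord x₀ r (z ∘ e.symm) ((he.fun_diff hz).mono hbox) (by
    intro x hx
    have ht : (x, (0 : ℂ)) ∈ e.target := hbox ⟨hx, mem_ball_self hr⟩
    have hsrc := e.map_target ht
    have hq0 : q (e.symm (x, 0)) = 0 := by
      rw [← hs _ hsrc, e.right_inv ht]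
    obtain ⟨v, hv0, hv1, hv2⟩ := hv _ hq0
    rw [he.deriv_eq hq hsrc, e.right_inv ht] at hv1
    rw [he.deriv_eq hz hsrc, e.right_inv ht] at hv2
    set w : ℂ × ℂ := mfderiv 𝓘(ℂ, E2) 𝓘(ℂ, ℂ × ℂ) e (e.symm (x, 0)) v with hw
    have hw0 : w ≠ 0 := by
      intro h
      apply hv0
      apply he.inj hsrc
      rw [map_zero]
      exact h
    have hsnd : fderiv ℂ (q ∘ e.symm) (x, 0) w = w.2 := by
      have h1 : (q ∘ e.symm) =ᶠ[𝓝 (x, (0 : ℂ))] Prod.snd := by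
        filter_upwards [e.open_target.mem_nhds ht] with u hu
        rw [Function.comp_apply, ← hs _ (e.map_target hu), e.right_inv hu]
      rw [h1.fderiv_eq, fderiv_snd]
      rfl
    have hw2 : w.2 = 0 := hsnd.symm.trans hv1
    have hw1 : w.1 ≠ 0 := by
      intro h
      exact hw0 (Prod.ext h hw2)
    have hww : w = w.1 • ((1, 0) : ℂ × ℂ) := by
      ext
      · simp
      · simp [hw2]
    have hv3 : fderiv ℂ (z ∘ e.symm) (x, 0) (w.1 • ((1, 0) : ℂ × ℂ)) = 0 := by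
      rw [← hww]
      exact hv2
    rw [map_smul, smul_eq_mul] at hv3
    exact (mul_eq_zero.1 hv3).resolve_left hw1)
  have hN : e.source ∩ e ⁻¹' (ball x₀ r ×ˢ ball (0 : ℂ) r) ∈ 𝓝 p := by
    apply (e.isOpen_inter_preimage hop).mem_nhds
    refine ⟨hp, ?_⟩
    rw [mem_preimage, hep]
    exact ⟨mem_ball_self hr, mem_ball_self hr⟩
  filter_upwards [hN] with y hy hy0
  have h1 : e y = ((e y).1, 0) := by
    ext
    · rfl
    · rw [hs y hy.1, hy0]
  have h2 := hc (e y).1 hy.2.1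
  rw [← h1, ← hep, Function.comp_apply, Function.comp_apply, e.left_inv hy.1,
    e.left_inv hp] at h2
  exact h2

end

/-- a locally constant function on a set with finitely many components has finitely many values -/
theorem finite_values {z : M → ℂ} {S : Set M} (hfin : Finite (ConnectedComponents S))
    (hloc : ∀ p ∈ S, ∀ᶠ y in 𝓝 p, y ∈ S → z y = z p) : (z '' S).Finite := by
  set f : S → ℂ := fun p => z p with hf
  have hlc : IsLocallyConstant f := by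
    rw [IsLocallyConstant.iff_eventually_eq]
    intro p
    have h1 := hloc p p.2
    have h2 : ∀ᶠ y : S in 𝓝 p, ((y : M) ∈ S → z y = z p) :=
      continuous_subtype_val.continuousAt.eventually h1
    filter_upwards [h2] with y hy
    exact hy y.2
  have hsub : z '' S ⊆ Set.range (fun c : ConnectedComponents S => f (Quot.out c)) := by
    rintro _ ⟨p, hp, rfl⟩
    refine ⟨(((⟨p, hp⟩ : S) : ConnectedComponents _)), ?_⟩
    set P : S := ⟨p, hp⟩ with hP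
    have h1 : (((Quot.out (P : ConnectedComponents S)) : S) : ConnectedComponents S) = P :=
      Quot.out_eq _
    have h2 := ConnectedComponents.coe_eq_coe.1 h1
    have h3 : f (Quot.out (P : ConnectedComponents S)) = f P := by
      apply hlc.apply_eq_of_isPreconnected
        (isPreconnected_connectedComponent (x := P)) _ mem_connectedComponent
      rw [← h2]
      exact mem_connectedComponent
    exact h3
  exact (Set.finite_range _).subset hsub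

/-- holomorphic functions on a complex surface are continuously differentiable -/
theorem contMDiff_one {f : M → ℂ} (hf : MDifferentiable 𝓘(ℂ, E2) 𝓘(ℂ, ℂ) f) :
    ContMDiff 𝓘(ℂ, E2) 𝓘(ℂ, ℂ) 1 f := by
  intro p
  rw [contMDiffAt_iff]
  refine ⟨(hf p).continuousAt, ?_⟩
  simp only [extChartAt_model_space_eq_id, PartialEquiv.refl_coe, Function.id_comp]
  apply ContDiffAt.contDiffWithinAt
  set e := chartAt E2 p with he
  have h1 : MDifferentiableOn 𝓘(ℂ, E2) 𝓘(ℂ, E2) e.symm e.target :=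
    mdifferentiableOn_atlas_symm (chart_mem_atlas E2 p)
  have h2 : DifferentiableOn ℂ (f ∘ e.symm) e.target := by
    rw [← mdifferentiableOn_iff_differentiableOn]
    exact hf.comp_mdifferentiableOn h1
  have h3 : DifferentiableOn ℂ ((f ∘ e.symm) ∘ T2.symm) (T2.symm ⁻¹' e.target) :=
    h2.comp T2.symm.differentiable.differentiableOn fun w hw => hw
  have hop : IsOpen (T2.symm ⁻¹' e.target) := e.open_target.preimage T2.symm.continuous
  have h4 := SCV.differentiableOn_analyticOnNhd _ hop _ h3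
  have hmem : T2 (e p) ∈ T2.symm ⁻¹' e.target := by
    rw [mem_preimage, ContinuousLinearEquiv.symm_apply_apply]
    exact e.map_source (mem_chart_source E2 p)
  have h5 : ContDiffAt ℂ 1 (((f ∘ e.symm) ∘ T2.symm) ∘ T2) (e p) :=
    (h4 _ hmem).contDiffAt.comp (e p) T2.contDiff.contDiffAt
  have h6 : ((f ∘ e.symm) ∘ T2.symm) ∘ T2 = f ∘ e.symm := by
    funext w
    simp
  rw [h6] at h5
  exact h5

/-- derivatives along continuous vector fields are continuous -/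
theorem continuous_deriv {f : M → ℂ} (hf : MDifferentiable 𝓘(ℂ, E2) 𝓘(ℂ, ℂ) f)
    {V : (p : M) → TangentSpace 𝓘(ℂ, E2) p}
    (hV : Continuous (fun p => (⟨p, V p⟩ : TangentBundle 𝓘(ℂ, E2) M))) :
    Continuous (fun p => (mfderiv 𝓘(ℂ, E2) 𝓘(ℂ, ℂ) f p (V p) : ℂ)) := by
  have h1 : Continuous (tangentMap 𝓘(ℂ, E2) 𝓘(ℂ, ℂ) f) :=
    (contMDiff_one hf).continuous_tangentMap le_rfl
  have h2 := h1.comp hV
  have h3 : Continuous (fun w : TangentBundle 𝓘(ℂ, ℂ) ℂ => (w.2 : ℂ)) := by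
    have h4 := (tangentBundleModelSpaceHomeomorph 𝓘(ℂ, ℂ)).continuous
    exact continuous_snd.comp h4
  exact h3.comp h2

end Pool.Agent.Immers
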