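import Mathlib
import Pool.Agent.Lib.MP_fcd94d_an.Equations

set_option autoImplicit false

/-!
# MP_fcd94d_an: immersions of affine modifications
-/

namespace Pool.Agent.MP_fcd94d_an

/-- Entire functions without critical points that vanish on a given finite set. -/
theorem exists_noncritical (T : Finset ℂ) :
    ∃ H : ℂ → ℂ, Differentiable ℂ H ∧ (∀ s, deriv H s ≠ 0) ∧ ∀ c ∈ T, H c = 0 := by
  classical
  induction T using Finset.induction_on with
  | empty =>
    exact ⟨fun s => s, differentiable_id, fun s => by simp, by simp⟩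
  | insert c T hc ih =>
    obtain ⟨H, hH, hd, h0⟩ := ih
    by_cases hcz : H c = 0
    · refine ⟨H, hH, hd, ?_⟩
      intro b hb
      rcases Finset.mem_insert.mp hb with rfl | hb
      · exact hcz
      · exact h0 b hb
    · set l : ℂ := 2 * Real.pi * Complex.I / H c with hl
      have hl0 : l ≠ 0 := by
        rw [hl]
        exact div_ne_zero Complex.two_pi_I_ne_zero hcz
      have hG : ∀ s, HasDerivAt (fun s => Complex.exp (l * H s) - 1)
          (Complex.exp (l * H s) * (l * deriv H s)) s := by
        intro s
        have h1 : HasDerivAt (fun s => l * H s) (l * deriv H s) s :=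
          (hH s).hasDerivAt.const_mul l
        exact h1.cexp.sub_const 1
      refine ⟨fun s => Complex.exp (l * H s) - 1, fun s => (hG s).differentiableAt, ?_, ?_⟩
      · intro s
        rw [(hG s).deriv]
        exact mul_ne_zero (Complex.exp_ne_zero _) (mul_ne_zero hl0 (hd s))
      · intro b hb
        rcases Finset.mem_insert.mp hb with rfl | hb
        · have : l * H b = 2 * Real.pi * Complex.I := by
            rw [hl]; field_simp
          simp only [this, Complex.exp_two_pi_mul_I, sub_self]
        · simp [h0 b hb]

/-- Division of an entire function by a product of distinct linear factors at its zeros. -/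
theorem exists_division (T : Finset ℂ) (H : ℂ → ℂ) (hH : Differentiable ℂ H)
    (h0 : ∀ c ∈ T, H c = 0) :
    ∃ q : ℂ → ℂ, Differentiable ℂ q ∧ ∀ s, H s = (∏ c ∈ T, (s - c)) * q s := by
  classical
  induction T using Finset.induction_on with
  | empty => exact ⟨H, hH, fun s => by simp⟩
  | insert c T hc ih =>
    obtain ⟨q, hq, hHq⟩ := ih (fun b hb => h0 b (Finset.mem_insert_of_mem hb))
    have hqc : q c = 0 := by
      have h1 := hHq c
      rw [h0 c (Finset.mem_insert_self c T)] at h1
      rcases mul_eq_zero.mp h1.symm with h2 | h2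
      · exfalso
        rw [Finset.prod_eq_zero_iff] at h2
        obtain ⟨b, hb, hb0⟩ := h2
        exact hc (by rw [sub_eq_zero.mp hb0]; exact hb)
      · exact h2
    refine ⟨dslope q c, ?_, ?_⟩
    · have := (Complex.differentiableOn_dslope (s := Set.univ) (c := c) (f := q)
        Filter.univ_mem).mpr hq.differentiableOn
      exact differentiableOn_univ.mp this
    · intro s
      have h2 : (s - c) * dslope q c s = q s := by
        have := sub_smul_dslope q c s
        rw [hqc, sub_zero] at this
        simpa [smul_eq_mul] using this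
      rw [Finset.prod_insert hc, hHq s, ← h2]
      ring

/-- For a squarefree polynomial `R` with `R(0) ≠ 0` there is an entire function `q` such that
`s R(s) q(s)` has no critical point. -/
theorem exists_factor (R : Polynomial ℂ) (hR : Squarefree R) (hR0 : R.eval 0 ≠ 0) :
    ∃ q : ℂ → ℂ, Differentiable ℂ q ∧
      ∀ s, deriv (fun s => s * R.eval s * q s) s ≠ 0 := by
  classical
  have hRne : R ≠ 0 := by
    rintro rfl
    simp at hR0
  have hnodup : R.roots.Nodup := by
    refine Polynomial.nodup_roots ?_
    exact (PerfectField.separable_iff_squarefree).mpr hR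
  obtain ⟨H, hH, hd, h0⟩ := exists_noncritical (insert 0 R.roots.toFinset)
  obtain ⟨q, hq, hHq⟩ := exists_division (insert 0 R.roots.toFinset) H hH h0
  have hsplit : ∀ s, R.eval s = R.leadingCoeff * ∏ c ∈ R.roots.toFinset, (s - c) := by
    intro s
    have h1 := (IsAlgClosed.splits R).eq_prod_roots
    have h2 : R.roots.toFinset.val = R.roots := by
      rw [Multiset.toFinset_val, hnodup.dedup]
    conv_lhs => rw [h1]
    rw [Polynomial.eval_mul, Polynomial.eval_C, Polynomial.eval_multiset_prod, Multiset.map_map]
    congr 1
    rw [Finset.prod, h2]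
    congr 1
    refine Multiset.map_congr rfl ?_
    intro c _
    simp
  have h0mem : (0 : ℂ) ∉ R.roots.toFinset := by
    rw [Multiset.mem_toFinset, Polynomial.mem_roots hRne]
    exact hR0
  have hlc : R.leadingCoeff ≠ 0 := Polynomial.leadingCoeff_ne_zero.mpr hRne
  refine ⟨fun s => q s / R.leadingCoeff, hq.div_const _, ?_⟩
  have : (fun s => s * R.eval s * (q s / R.leadingCoeff)) = H := by
    funext s
    rw [hHq s, hsplit s, Finset.prod_insert h0mem, sub_zero]
    field_simp
  rw [this]
  exact hd

theorem differentiable_equations {N r : ℕ} {a : (Fin N → ℂ) → ℂ}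
    {f : Fin r → (Fin N → ℂ) → ℂ} {P : Fin r → Polynomial ℂ}
    (ha : Differentiable ℂ a) (hf : ∀ i, Differentiable ℂ (f i)) :
    Differentiable ℂ (equations a f P) := by
  unfold equations
  rw [differentiable_pi]
  intro i
  have h1 : Differentiable ℂ (fun p : (Fin N → ℂ) × ℂ × (Fin r → ℂ) => f i p.1) :=
    (hf i).comp differentiable_fst
  have h2 : Differentiable ℂ (fun p : (Fin N → ℂ) × ℂ × (Fin r → ℂ) => p.2.2 i) := by
    fun_prop
  have h3 : Differentiable ℂ (fun p : (Fin N → ℂ) × ℂ × (Fin r → ℂ) => a p.1) :=
    ha.comp differentiable_fst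
  have h4 : Differentiable ℂ (fun p : (Fin N → ℂ) × ℂ × (Fin r → ℂ) => p.2.1) := by
    fun_prop
  exact (h1.mul h2).sub ((P i).differentiable.comp (h3.mul h4))

/-- Derivative of the equations in a vertical direction. -/
theorem fderiv_equations {N r : ℕ} {a : (Fin N → ℂ) → ℂ}
    {f : Fin r → (Fin N → ℂ) → ℂ} {P : Fin r → Polynomial ℂ}
    (ha : Differentiable ℂ a) (hf : ∀ i, Differentiable ℂ (f i))
    (z : Fin N → ℂ) (u : ℂ) (y : Fin r → ℂ) (u' : ℂ) (y' : Fin r → ℂ) (i : Fin r) :
    fderiv ℂ (equations a f P) (z, u, y) (0, u', y') i =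
      f i z * y' i - (P i).derivative.eval (a z * u) * (a z * u') := by
  have h1 := (differentiable_equations (P := P) ha hf (z, u, y)).lineDeriv_eq_fderiv
    (v := ((0 : Fin N → ℂ), u', y'))
  rw [← h1]
  have h2 : HasLineDerivAt ℂ (equations a f P)
      (fun i => f i z * y' i - (P i).derivative.eval (a z * u) * (a z * u')) (z, u, y)
      (0, u', y') := by
    unfold HasLineDerivAt
    rw [hasDerivAt_pi]
    intro i
    have h3 : HasDerivAt (fun t : ℂ => f i z * (y i + t * y' i)) (f i z * (y' i)) 0 := by
      have : HasDerivAt (fun t : ℂ => y i + t * y' i) (1 * y' i) 0 :=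
        ((hasDerivAt_id (0 : ℂ)).mul_const (y' i)).const_add (y i)
      simpa using this.const_mul (f i z)
    have h4 : HasDerivAt (fun t : ℂ => a z * (u + t * u')) (a z * u') 0 := by
      have : HasDerivAt (fun t : ℂ => u + t * u') (1 * u') 0 :=
        ((hasDerivAt_id (0 : ℂ)).mul_const u').const_add u
      simpa using this.const_mul (a z)
    have h5 : HasDerivAt (fun t : ℂ => (P i).eval (a z * (u + t * u')))
        ((P i).derivative.eval (a z * u) * (a z * u')) 0 := by
      have h6 := (P i).hasDerivAt (a z * (u + 0 * u'))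
      have h7 := HasDerivAt.comp (0 : ℂ) (h₂ := fun s => (P i).eval s)
        (h := fun t : ℂ => a z * (u + t * u')) (by simpa using h6) h4
      simpa [Function.comp_def] using h7
    have h8 := h3.sub h5
    refine h8.congr_of_eventuallyEq ?_
    refine Filter.Eventually.of_forall ?_
    intro t
    simp [equations]
  rw [h2.lineDeriv]

/-- The immersion. -/
def immersion {N r : ℕ} (a : (Fin N → ℂ) → ℂ) (q : ℂ → ℂ)
    (p : (Fin N → ℂ) × ℂ × (Fin r → ℂ)) : (Fin N → ℂ) × ℂ :=
  (p.1, p.2.1 * q (a p.1 * p.2.1) * ∏ i, p.2.2 i)

theorem differentiable_immersion {N r : ℕ} {a : (Fin N → ℂ) → ℂ} {q : ℂ → ℂ}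
    (ha : Differentiable ℂ a) (hq : Differentiable ℂ q) :
    Differentiable ℂ (immersion (r := r) a q) := by
  unfold immersion
  have h3 : Differentiable ℂ (fun p : (Fin N → ℂ) × ℂ × (Fin r → ℂ) => a p.1) :=
    ha.comp differentiable_fst
  have h4 : Differentiable ℂ (fun p : (Fin N → ℂ) × ℂ × (Fin r → ℂ) => p.2.1) := by
    fun_prop
  have h5 : Differentiable ℂ (fun p : (Fin N → ℂ) × ℂ × (Fin r → ℂ) => ∏ i, p.2.2 i) := by
    fun_prop
  exact differentiable_fst.prodMk ((h4.mul (hq.comp (h3.mul h4))).mul h5)

theorem fderiv_immersion {N r : ℕ} {a : (Fin N → ℂ) → ℂ} {q : ℂ → ℂ}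
    (ha : Differentiable ℂ a) (hq : Differentiable ℂ q)
    (z : Fin N → ℂ) (u : ℂ) (y : Fin r → ℂ) (u' : ℂ) (y' : Fin r → ℂ) :
    (fderiv ℂ (immersion (r := r) a q) (z, u, y) (0, u', y')).2 =
      (u' * q (a z * u) + u * (deriv q (a z * u) * (a z * u'))) * ∏ i, y i +
        u * q (a z * u) * ∑ i, (∏ j ∈ Finset.univ.erase i, y j) * y' i := by
  have h1 := (differentiable_immersion (r := r) ha hq (z, u, y)).lineDeriv_eq_fderiv
    (v := ((0 : Fin N → ℂ), u', y'))
  rw [← h1]
  have h2 : HasLineDerivAt ℂ (immersion (r := r) a q)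
      ((0 : Fin N → ℂ), (u' * q (a z * u) + u * (deriv q (a z * u) * (a z * u'))) * ∏ i, y i +
        u * q (a z * u) * ∑ i, (∏ j ∈ Finset.univ.erase i, y j) * y' i) (z, u, y)
      (0, u', y') := by
    unfold HasLineDerivAt
    have hA : HasDerivAt (fun t : ℂ => u + t * u') u' 0 := by
      have : HasDerivAt (fun t : ℂ => u + t * u') (1 * u') 0 :=
        ((hasDerivAt_id (0 : ℂ)).mul_const u').const_add u
      simpa using this
    have hB : HasDerivAt (fun t : ℂ => a z * (u + t * u')) (a z * u') 0 := hA.const_mul (a z)
    have hC : HasDerivAt (fun t : ℂ => q (a z * (u + t * u')))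
        (deriv q (a z * u) * (a z * u')) 0 := by
      have h6 := (hq (a z * (u + 0 * u'))).hasDerivAt
      have h7 := HasDerivAt.comp (0 : ℂ) (h₂ := q)
        (h := fun t : ℂ => a z * (u + t * u')) h6 hB
      simpa [Function.comp_def] using h7
    have hD : HasDerivAt (fun t : ℂ => ∏ i, (y i + t * y' i))
        (∑ i, (∏ j ∈ Finset.univ.erase i, (y j + 0 * y' j)) • y' i) 0 := by
      refine HasDerivAt.fun_finsetProd ?_
      intro i _
      have : HasDerivAt (fun t : ℂ => y i + t * y' i) (1 * y' i) 0 :=
        ((hasDerivAt_id (0 : ℂ)).mul_const (y' i)).const_add (y i)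
      simpa using this
    have hE : HasDerivAt (fun t : ℂ => (u + t * u') * q (a z * (u + t * u')) *
        ∏ i, (y i + t * y' i))
        ((u' * q (a z * u) + u * (deriv q (a z * u) * (a z * u'))) * ∏ i, y i +
          u * q (a z * u) * ∑ i, (∏ j ∈ Finset.univ.erase i, y j) * y' i) 0 := by
      refine ((hA.mul hC).mul hD).congr_deriv ?_
      simp [smul_eq_mul]
    have hF := (hasDerivAt_const (0 : ℂ) z).prodMk hE
    refine hF.congr_of_eventuallyEq ?_
    refine Filter.Eventually.of_forall ?_
    intro t
    simp [immersion]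
  rw [h2.lineDeriv]

theorem main (N r : ℕ) (a : (Fin N → ℂ) → ℂ) (f : Fin r → (Fin N → ℂ) → ℂ)
    (P : Fin r → Polynomial ℂ) (ha : Differentiable ℂ a) (hf : ∀ i, Differentiable ℂ (f i))
    (hP : Squarefree (∏ i, P i)) (hP0 : ∀ i, (P i).eval 0 ≠ 0) :
    ∃ F : (Fin N → ℂ) × ℂ × (Fin r → ℂ) → (Fin N → ℂ) × ℂ, Differentiable ℂ F ∧
      ∀ p, equations a f P p = 0 →
        Function.Surjective (fderiv ℂ (equations a f P) p) ∧
        ∀ v, fderiv ℂ (equations a f P) p v = 0 → fderiv ℂ F p v = 0 → v = 0 := by
  classical
  set R : Polynomial ℂ := ∏ i, P i with hRdef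
  have hR0 : R.eval 0 ≠ 0 := by
    rw [hRdef, Polynomial.eval_prod]
    exact Finset.prod_ne_zero_iff.mpr (fun i _ => hP0 i)
  obtain ⟨q, hq, hqd⟩ := exists_factor R hP hR0
  refine ⟨immersion a q, differentiable_immersion ha hq, ?_⟩
  rintro ⟨z, u, y⟩ hp
  -- the equations
  have hpi : ∀ i, f i z * y i = (P i).eval (a z * u) := by
    intro i
    have := congrFun hp i
    simp only [equations, Pi.zero_apply] at this
    exact sub_eq_zero.mp this
  set s : ℂ := a z * u with hs
  have hevalR : R.eval s = ∏ i, (P i).eval s := by
    rw [hRdef, Polynomial.eval_prod]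
  -- derivative of the function `s R q`
  have hderH : deriv (fun s => s * R.eval s * q s) s =
      (R.eval s + s * R.derivative.eval s) * q s + s * R.eval s * deriv q s := by
    have h1 : HasDerivAt (fun s : ℂ => s * R.eval s) (1 * R.eval s + s * R.derivative.eval s) s :=
      (hasDerivAt_id s).mul (R.hasDerivAt s)
    have h2 : HasDerivAt (fun s => s * R.eval s * q s)
        ((1 * R.eval s + s * R.derivative.eval s) * q s + s * R.eval s * deriv q s) s :=
      h1.mul (hq s).hasDerivAt
    rw [h2.deriv]
    ring
  have hH := hqd s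
  rw [hderH] at hH
  -- simple roots
  have hsep : R.Separable := (PerfectField.separable_iff_squarefree).mpr hP
  have hroot : ∀ k, (P k).eval s = 0 → (P k).derivative.eval s ≠ 0 ∧
      (∀ i, i ≠ k → (P i).eval s ≠ 0) ∧ s ≠ 0 := by
    intro k hk
    have hfac : R = P k * ∏ i ∈ Finset.univ.erase k, P i := by
      rw [hRdef]
      exact (Finset.mul_prod_erase Finset.univ P (Finset.mem_univ k)).symm
    have hRk : R.eval s = 0 := by rw [hfac, Polynomial.eval_mul, hk, zero_mul]
    have hRd : R.derivative.eval s ≠ 0 := by
      have := hsep.eval₂_derivative_ne_zero (RingHom.id ℂ) (x := s)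
        (by simpa [Polynomial.eval₂_id] using hRk)
      simpa [Polynomial.eval₂_id] using this
    have hRd2 : R.derivative.eval s =
        (P k).derivative.eval s * (∏ i ∈ Finset.univ.erase k, P i).eval s := by
      rw [hfac, Polynomial.derivative_mul, Polynomial.eval_add, Polynomial.eval_mul,
        Polynomial.eval_mul, hk, zero_mul, add_zero]
    rw [hRd2] at hRd
    refine ⟨left_ne_zero_of_mul hRd, ?_, ?_⟩
    · intro i hi h0
      apply right_ne_zero_of_mul hRd
      rw [Polynomial.eval_prod]
      exact Finset.prod_eq_zero (Finset.mem_erase.mpr ⟨hi, Finset.mem_univ i⟩) h0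
    · intro hs0
      rw [hs0] at hk
      exact hP0 k hk
  constructor
  · -- surjectivity
    intro w
    by_cases hall : ∀ i, f i z ≠ 0
    · refine ⟨(0, 0, fun i => w i / f i z), ?_⟩
      funext i
      rw [fderiv_equations ha hf]
      have := hall i
      field_simp
      simp
    · push Not at hall
      obtain ⟨k, hk⟩ := hall
      have hPk : (P k).eval s = 0 := by rw [← hpi k, hk, zero_mul]
      obtain ⟨hd, hne, hs0⟩ := hroot k hPk
      have haz : a z ≠ 0 := by
        intro h
        exact hs0 (by rw [hs, h, zero_mul])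
      have hfi : ∀ i, i ≠ k → f i z ≠ 0 := by
        intro i hi h
        apply hne i hi
        rw [← hpi i, h, zero_mul]
      set u' : ℂ := -(w k) / ((P k).derivative.eval s * a z) with hu'
      refine ⟨(0, u', fun i => if i = k then 0 else
        (w i + (P i).derivative.eval s * (a z * u')) / f i z), ?_⟩
      funext i
      rw [fderiv_equations ha hf]
      by_cases hi : i = k
      · subst hi
        simp only [if_true, mul_zero, zero_sub]
        rw [← hs, hu']
        field_simp
      · simp only [if_neg hi]
        have := hfi i hi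
        rw [← hs]
        field_simp
        ring
  · -- injectivity
    rintro ⟨z', u', y'⟩ hv hw
    have hz' : z' = 0 := by
      have h1 : HasFDerivAt (immersion (r := r) a q)
          (fderiv ℂ (immersion (r := r) a q) (z, u, y)) (z, u, y) :=
        (differentiable_immersion ha hq (z, u, y)).hasFDerivAt
      have h2 : HasFDerivAt (fun p : (Fin N → ℂ) × ℂ × (Fin r → ℂ) => p.1)
          (ContinuousLinearMap.fst ℂ (Fin N → ℂ) (ℂ × (Fin r → ℂ))) (z, u, y) :=
        hasFDerivAt_fst
      have h3 := h1.fst
      have h4 := h2.unique h3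
      have h5 := congrArg (fun L => L (z', u', y')) h4
      simp only [ContinuousLinearMap.coe_fst', ContinuousLinearMap.coe_comp,
        Function.comp_apply, hw] at h5
      simpa using h5
    subst hz'
    have hvi : ∀ i, f i z * y' i = (P i).derivative.eval s * (a z * u') := by
      intro i
      have := congrFun hv i
      rw [fderiv_equations ha hf] at this
      rw [← hs] at this
      simpa [sub_eq_zero] using this
    have hw2 : (u' * q s + u * (deriv q s * (a z * u'))) * ∏ i, y i +
        u * q s * ∑ i, (∏ j ∈ Finset.univ.erase i, y j) * y' i = 0 := by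
      have := fderiv_immersion (r := r) ha hq z u y u' y'
      rw [hw] at this
      rw [← hs] at this
      simpa using this.symm
    by_cases hall : ∀ i, f i z ≠ 0
    · -- all `f i` nonzero
      have hy : ∀ i, y i = (P i).eval s / f i z := by
        intro i
        rw [eq_div_iff (hall i), mul_comm]
        exact hpi i
      have hy' : ∀ i, y' i = (P i).derivative.eval s * (a z * u') / f i z := by
        intro i
        rw [eq_div_iff (hall i), mul_comm]
        exact hvi i
      have hPi : (∏ i, f i z) ≠ 0 := Finset.prod_ne_zero_iff.mpr (fun i _ => hall i)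
      have e1 : (∏ i, y i) = R.eval s / ∏ i, f i z := by
        rw [hevalR, ← Finset.prod_div_distrib]
        exact Finset.prod_congr rfl (fun i _ => hy i)
      have e2 : (∑ i, (∏ j ∈ Finset.univ.erase i, y j) * y' i) =
          R.derivative.eval s * (a z * u') / ∏ i, f i z := by
        have hder : R.derivative.eval s =
            ∑ i, (∏ j ∈ Finset.univ.erase i, (P j).eval s) * (P i).derivative.eval s := by
          rw [hRdef, Polynomial.derivative_prod_finset, Polynomial.eval_finsetSum]
          refine Finset.sum_congr rfl (fun i _ => ?_)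
          rw [Polynomial.eval_mul, Polynomial.eval_prod]
        rw [hder, Finset.sum_mul, Finset.sum_div]
        refine Finset.sum_congr rfl (fun i _ => ?_)
        have e3 : (∏ i, f i z) = f i z * ∏ j ∈ Finset.univ.erase i, f j z :=
          (Finset.mul_prod_erase Finset.univ (fun j => f j z) (Finset.mem_univ i)).symm
        have e4 : (∏ j ∈ Finset.univ.erase i, y j) =
            (∏ j ∈ Finset.univ.erase i, (P j).eval s) / ∏ j ∈ Finset.univ.erase i, f j z := by
          rw [← Finset.prod_div_distrib]
          exact Finset.prod_congr rfl (fun j _ => hy j)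
        have e5 : (∏ j ∈ Finset.univ.erase i, f j z) ≠ 0 :=
          Finset.prod_ne_zero_iff.mpr (fun j _ => hall j)
        have := hall i
        rw [e3, e4, hy' i]
        field_simp
      rw [e1, e2] at hw2
      have hw3 : u' * ((R.eval s + s * R.derivative.eval s) * q s +
          s * R.eval s * deriv q s) = 0 := by
        have : (∏ i, f i z) * ((u' * q s + u * (deriv q s * (a z * u'))) *
            (R.eval s / ∏ i, f i z) + u * q s *
            (R.derivative.eval s * (a z * u') / ∏ i, f i z)) = 0 := by
          rw [hw2, mul_zero]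
        rw [← this, hs]
        field_simp
        ring
      have hu' : u' = 0 := by
        rcases mul_eq_zero.mp hw3 with h | h
        · exact h
        · exact absurd h hH
      have hy'0 : y' = 0 := by
        funext i
        rw [hy' i, hu']
        simp
      rw [hu', hy'0]
      rfl
    · push Not at hall
      obtain ⟨k, hk⟩ := hall
      have hPk : (P k).eval s = 0 := by rw [← hpi k, hk, zero_mul]
      obtain ⟨hd, hne, hs0⟩ := hroot k hPk
      have haz : a z ≠ 0 := by
        intro h
        exact hs0 (by rw [hs, h, zero_mul])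
      have hu0 : u ≠ 0 := by
        intro h
        exact hs0 (by rw [hs, h, mul_zero])
      have hu' : u' = 0 := by
        have h1 := hvi k
        rw [hk, zero_mul] at h1
        rcases mul_eq_zero.mp h1.symm with h2 | h2
        · exact absurd h2 hd
        · exact (mul_eq_zero.mp h2).resolve_left haz
      have hfi : ∀ i, i ≠ k → f i z ≠ 0 := by
        intro i hi h
        apply hne i hi
        rw [← hpi i, h, zero_mul]
      have hyi : ∀ i, i ≠ k → y i ≠ 0 := by
        intro i hi h
        apply hne i hi
        rw [← hpi i, h, mul_zero]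
      have hyi' : ∀ i, i ≠ k → y' i = 0 := by
        intro i hi
        have h1 := hvi i
        rw [hu', mul_zero, mul_zero] at h1
        exact (mul_eq_zero.mp h1).resolve_left (hfi i hi)
      have hRs : R.eval s = 0 := by
        rw [hevalR]
        exact Finset.prod_eq_zero (Finset.mem_univ k) hPk
      have hqs : q s ≠ 0 := by
        intro h
        apply hH
        rw [h, hRs]
        ring
      have hsum : (∑ i, (∏ j ∈ Finset.univ.erase i, y j) * y' i) =
          (∏ j ∈ Finset.univ.erase k, y j) * y' k := by
        refine Finset.sum_eq_single k ?_ ?_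
        · intro i _ hi
          rw [hyi' i hi, mul_zero]
        · intro h
          exact absurd (Finset.mem_univ k) h
      rw [hu', hsum] at hw2
      simp only [zero_mul, mul_zero, add_zero, zero_add] at hw2
      have hprod : (∏ j ∈ Finset.univ.erase k, y j) ≠ 0 := by
        refine Finset.prod_ne_zero_iff.mpr (fun j hj => hyi j (Finset.mem_erase.mp hj).1)
      have hyk : y' k = 0 := by
        rcases mul_eq_zero.mp hw2 with h | h
        · exact absurd h (mul_ne_zero hu0 hqs)
        · exact (mul_eq_zero.mp h).resolve_left hprod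
      have hy'0 : y' = 0 := by
        funext i
        by_cases hi : i = k
        · rw [hi, hyk]; rfl
        · rw [hyi' i hi]; rfl
      rw [hu', hy'0]
      rfl

end Pool.Agent.MP_fcd94d_an
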