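import Pool.Agent.Lib.MP_fcd94d_an.Main

/-!
The main construction for infinite products of first integrals.
-/

set_option linter.unusedSectionVars false

open Complex Metric Set Filter Topology
open scoped Manifold

namespace Pool.Agent.Immers

variable {M : Type} [TopologicalSpace M] [ChartedSpace E2 M] [IsManifold 𝓘(ℂ, E2) 1 M]

/-- a finite product may be split off -/
theorem tail_succ {q : ℕ → ℂ} (hs : Summable fun n => ‖q n - 1‖) (n : ℕ) :
    ∏' k, q (n + k) = q n * ∏' k, q (n + 1 + k) := by
  have hm : ∀ m, Multipliable fun k => q (m + k) := by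
    intro m
    have h1 : Summable fun k => ‖q (k + m) - 1‖ := (summable_nat_add_iff m).2 hs
    have h2 := multipliable_one_add_of_summable h1
    refine h2.congr fun k => ?_
    rw [add_sub_cancel, add_comm]
  have h3 := tprod_eq_zero_mul' (f := fun k => q (n + k)) (by
    refine (hm (n + 1)).congr fun k => ?_
    congr 1
    ring)
  rw [h3]
  congr 1
  apply tprod_congr
  intro k
  congr 1
  ring

/-- The main construction, for an entire function of `x` and a locally uniformly convergent
product of first integrals. -/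
theorem exists_of_prod [SigmaCompactSpace M] [LocallyCompactSpace M]
    {V : (p : M) → TangentSpace 𝓘(ℂ, E2) p} {x : M → ℂ} (S : Setup x V)
    {Q : ℂ → ℂ} (hQ : Differentiable ℂ Q) {c₀ : ℂ} (hQ0 : Q c₀ ≠ 0)
    (hfin : ∀ a, Q a = 0 → Finite (ConnectedComponents {p : M | x p = a}))
    {q : ℕ → M → ℂ} (hq : ∀ n, QSetup V (q n))
    (hsum : ∀ K : Set M, IsCompact K → ∃ b : ℕ → ℝ, Summable b ∧
      ∀ n, ∀ p ∈ K, ‖q n p - 1‖ ≤ b n)
    {z : M → ℂ} (hz : MDifferentiable 𝓘(ℂ, E2) 𝓘(ℂ, ℂ) z) {u : M → ℂ} (hu : Continuous u)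
    (hu0 : ∀ p, u p ≠ 0) (hVz : ∀ p, dV V z p = u p * (Q (x p) * ∏' n, q n p)) :
    ∃ g : M → ℂ, MDifferentiable 𝓘(ℂ, E2) 𝓘(ℂ, ℂ) g ∧ ∀ p, dV V g p ≠ 0 := by
  have hcq : ∀ n, Continuous (q n) := fun n => (hq n).hq.continuous
  have hsp : ∀ p, Summable fun n => ‖q n p - 1‖ := by
    intro p
    obtain ⟨b, hb, hb'⟩ := hsum {p} isCompact_singleton
    exact hb.of_nonneg_of_le (fun n => norm_nonneg _) fun n => hb' n p rfl
  let P : ℕ → M → ℂ := fun n p => ∏' k, q (n + k) p
  have hPc : ∀ n, Continuous (P n) := by
    intro n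
    rw [continuous_iff_continuousAt]
    intro p
    obtain ⟨K, hK, hKp⟩ := exists_compact_mem_nhds p
    obtain ⟨b, hb, hb'⟩ := hsum K hK
    have h1 := Summable.hasProdUniformlyOn_nat_one_add (f := fun k p => q (n + k) p - 1) hK
      (u := fun k => b (n + k)) (by
        have h2 := (summable_nat_add_iff n).2 hb
        refine h2.congr fun k => ?_
        rw [add_comm])
      (Filter.Eventually.of_forall fun k x hx => hb' (n + k) x hx)
      (fun k => ((hcq (n + k)).sub continuous_const).continuousOn)
    have h3 := h1.tendstoUniformlyOn.continuousOn (Filter.Frequently.of_forall fun s => by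
      apply continuousOn_finsetProd
      intro k _
      exact (continuous_const.add ((hcq (n + k)).sub continuous_const)).continuousOn)
    have h4 : (fun x => ∏' k, (1 + (q (n + k) x - 1))) = P n := by
      funext x
      apply tprod_congr
      intro k
      rw [add_sub_cancel]
    rw [h4] at h3
    exact h3.continuousAt hKp
  have hPne : ∀ p, ∃ n, P n p ≠ 0 := by
    intro p
    have h1 : ∀ᶠ n in atTop, ‖q n p - 1‖ < 1 :=
      (hsp p).tendsto_atTop_zero.eventually (gt_mem_nhds one_pos)
    obtain ⟨n, hn⟩ := Filter.eventually_atTop.1 h1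
    refine ⟨n, ?_⟩
    have h2 := tprod_one_add_ne_zero_of_summable (f := fun k => q (n + k) p - 1) (by
      intro k h
      have h3 := hn (n + k) (Nat.le_add_right n k)
      have h4 : q (n + k) p = 0 := by
        rw [← h]
        ring
      rw [h4, zero_sub, norm_neg, norm_one] at h3
      exact lt_irrefl _ h3) (by
      have h5 := (summable_nat_add_iff n).2 (hsp p)
      refine h5.congr fun k => ?_
      rw [add_comm])
    have h6 : (∏' k, (1 + (q (n + k) p - 1))) = P n p := by
      apply tprod_congr
      intro k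
      rw [add_sub_cancel]
    rw [← h6]
    exact h2
  refine exists_of_seq S hQ hQ0 hfin hq hPc (fun n p => tail_succ (hsp p) n) hPne ?_ hz hu hu0
    (fun p => ?_)
  · intro K hK
    obtain ⟨b, hb, hb'⟩ := hsum K hK
    filter_upwards [hb.tendsto_atTop_zero.eventually (gt_mem_nhds one_pos)] with n hn p hp
    rw [norm_sub_rev]
    exact lt_of_le_of_lt (hb' n p hp) hn
  · rw [hVz p]
    congr 2
    apply tprod_congr
    intro k
    rw [zero_add]

end Pool.Agent.Immers
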