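import Pool.Agent.Lib.MP_fcd94d_an.Kill

/-!
Removing zeros of `V f`: division by a first integral after killing the values on its zero set,
with control on a compact set.
-/

set_option linter.unusedSectionVars false

open Complex Metric Set Filter Topology
open scoped Manifold

namespace Pool.Agent.Immers

/-- the first Weierstrass factors -/
theorem exists_weier {r : ℝ} (hr : r < 1) {δ : ℝ} (hδ : 0 < δ) :
    ∃ k : ℂ → ℂ, Differentiable ℂ k ∧ ∀ t, ‖t‖ ≤ r → ∃ d, ‖d‖ ≤ δ ∧ (1 - t) * exp (k t) = exp d := by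
  by_cases hr0 : 0 ≤ r
  · have ht : Tendsto (fun n : ℕ => r ^ (n + 1) * (1 - r)⁻¹) atTop (𝓝 0) := by
      have h1 := ((tendsto_pow_atTop_nhds_zero_of_lt_one hr0 hr).comp
        (tendsto_add_atTop_nat 1)).mul_const (1 - r)⁻¹
      rwa [zero_mul] at h1
    obtain ⟨n, hn⟩ := (ht.eventually (gt_mem_nhds hδ)).exists
    have hd : Differentiable ℂ (fun t : ℂ => -logTaylor (n + 1) (-t)) := by
      intro t
      exact (((hasDerivAt_logTaylor n (-t)).differentiableAt).comp t
        (differentiableAt_id.neg)).neg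
    refine ⟨fun t => -logTaylor (n + 1) (-t), hd, fun t htr => ?_⟩
    refine ⟨log (1 + -t) - logTaylor (n + 1) (-t), ?_, ?_⟩
    · have h2 : ‖-t‖ < 1 := by
        rw [norm_neg]
        linarith
      refine (norm_log_sub_logTaylor_le n h2).trans ?_
      rw [norm_neg] at h2 ⊢
      have h3 : (0 : ℝ) < 1 - ‖t‖ := by linarith
      have h4 : (0 : ℝ) < 1 - r := by linarith
      have h5 : ‖t‖ ^ (n + 1) * (1 - ‖t‖)⁻¹ ≤ r ^ (n + 1) * (1 - r)⁻¹ := by
        apply mul_le_mul _ _ (by positivity) (by positivity)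
        · exact pow_le_pow_left₀ (norm_nonneg _) htr _
        · exact inv_anti₀ h4 (by linarith)
      have h6 : ‖t‖ ^ (n + 1) * (1 - ‖t‖)⁻¹ / (n + 1) ≤ ‖t‖ ^ (n + 1) * (1 - ‖t‖)⁻¹ := by
        apply div_le_self (by positivity)
        have : (0 : ℝ) ≤ n := Nat.cast_nonneg n
        linarith
      linarith
    · have h7 : (1 : ℂ) + -t ≠ 0 := by
        intro h
        have h8 : t = 1 := by linear_combination -h
        rw [h8, norm_one] at htr
        linarith
      rw [sub_eq_add_neg (log (1 + -t)), exp_add, exp_log h7, ← sub_eq_add_neg]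
  · refine ⟨fun _ => 0, differentiable_const _, fun t ht => ?_⟩
    have := norm_nonneg t
    exact absurd (this.trans ht) hr0

variable {M : Type} [TopologicalSpace M] [ChartedSpace E2 M] [IsManifold 𝓘(ℂ, E2) 1 M]

/-- a Weierstrass factor close to `1` on `K` -/
theorem exists_w {q : M → ℂ} (hcq : Continuous q) {K : Set M} (hK : IsCompact K)
    (hKq : ∀ p ∈ K, ‖1 - q p‖ < 1) {δ : ℝ} (hδ : 0 < δ) :
    ∃ w w' : ℂ → ℂ, Differentiable ℂ w ∧ Differentiable ℂ w' ∧ (∀ c, w c * w' c = 1) ∧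
      ∀ p ∈ K, ∃ d, ‖d‖ ≤ δ ∧ q p * w (q p) = exp d := by
  rcases K.eq_empty_or_nonempty with hKe | hKne
  · refine ⟨fun _ => 1, fun _ => 1, differentiable_const _, differentiable_const _,
      fun c => one_mul 1, fun p hp => ?_⟩
    rw [hKe] at hp
    exact absurd hp (notMem_empty p)
  · obtain ⟨p₀, hp₀, hmax⟩ := hK.exists_isMaxOn hKne
      (continuous_const.sub hcq).norm.continuousOn (f := fun p => ‖1 - q p‖)
    obtain ⟨k, hk, hk'⟩ := exists_weier (hKq p₀ hp₀) hδ
    have hdk : Differentiable ℂ (fun c : ℂ => k (1 - c)) :=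
      hk.comp ((differentiable_const 1).sub differentiable_id)
    refine ⟨fun c => exp (k (1 - c)), fun c => exp (-k (1 - c)), hdk.cexp, hdk.neg.cexp,
      fun c => ?_, fun p hp => ?_⟩
    · rw [← exp_add, add_neg_cancel, exp_zero]
    · obtain ⟨d, hd, hd'⟩ := hk' (1 - q p) (hmax hp)
      refine ⟨d, hd, ?_⟩
      rw [← hd', sub_sub_cancel]

theorem mfderiv_sub_const' {x : M → ℂ} (hx : MDifferentiable 𝓘(ℂ, E2) 𝓘(ℂ, ℂ) x) (a : ℂ)
    (p : M) : mfderiv 𝓘(ℂ, E2) 𝓘(ℂ, ℂ) (fun p => x p - a) p = mfderiv 𝓘(ℂ, E2) 𝓘(ℂ, ℂ) x p := by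
  have h1 := (hx p).hasMFDerivAt
  have h2 : HasMFDerivAt 𝓘(ℂ, E2) 𝓘(ℂ, ℂ) (fun p => x p - a) p
      (mfderiv 𝓘(ℂ, E2) 𝓘(ℂ, ℂ) x p) := ⟨h1.1.sub continuousAt_const, h1.2.sub_const a⟩
  exact h2.mfderiv

/-- the standing assumptions: `V` is a continuous vector field without zeros -/
structure VSetup (V : (p : M) → TangentSpace 𝓘(ℂ, E2) p) : Prop where
  hV : Continuous (fun p => (⟨p, V p⟩ : TangentBundle 𝓘(ℂ, E2) M))
  hV0 : ∀ p, V p ≠ 0

/-- `q` is a first integral of `V` with simple zeros, the zero set has finitely many components -/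
structure QSetup (V : (p : M) → TangentSpace 𝓘(ℂ, E2) p) (q : M → ℂ) : Prop where
  hq : MDifferentiable 𝓘(ℂ, E2) 𝓘(ℂ, ℂ) q
  hVq : ∀ p, dV V q p = 0
  hdq : ∀ p, q p = 0 → mfderiv 𝓘(ℂ, E2) 𝓘(ℂ, ℂ) q p ≠ 0
  hfin : Finite (ConnectedComponents {p : M | q p = 0})

variable {V : (p : M) → TangentSpace 𝓘(ℂ, E2) p} {q : M → ℂ} (S : VSetup V)

theorem QSetup.dense (T : QSetup V q) : Dense {p | q p ≠ 0} := by
  intro p
  by_cases h : q p = 0
  · exact mem_closure T.hq p (T.hdq p h)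
  · exact subset_closure h

include S

/-- removing one factor -/
theorem step_one (T : QSetup V q) {f : M → ℂ} (hf : MDifferentiable 𝓘(ℂ, E2) 𝓘(ℂ, ℂ) f)
    {P : M → ℂ} (hP : Continuous P) {u : M → ℂ} (hu : Continuous u) (hu0 : ∀ p, u p ≠ 0)
    (hVf : ∀ p, dV V f p = u p * (q p * P p))
    {K : Set M} (hK : IsCompact K) (hKq : ∀ p ∈ K, ‖1 - q p‖ < 1) {ε : ℝ} (hε : 0 < ε) :
    ∃ f' : M → ℂ, MDifferentiable 𝓘(ℂ, E2) 𝓘(ℂ, ℂ) f' ∧ ∃ u' : M → ℂ, Continuous u' ∧
      (∀ p, u' p ≠ 0) ∧ (∀ p, dV V f' p = u' p * P p) ∧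
      ∀ p ∈ K, ‖f' p - f p‖ ≤ ε ∧ ∃ κ : ℂ, ‖κ‖ ≤ ε ∧ dV V f' p = exp κ * dV V f p := by
  have hcq : Continuous q := T.hq.continuous
  have hcf : Continuous f := hf.continuous
  -- the values of `f` on the zero set
  have hloc : ∀ p ∈ {p : M | q p = 0}, ∀ᶠ y in 𝓝 p, y ∈ {p : M | q p = 0} → f y = f p := by
    intro p hp
    exact local_const T.hq hf (by
      intro y hy
      refine ⟨V y, S.hV0 y, T.hVq y, ?_⟩
      have h2 := hVf y
      rw [hy, zero_mul, mul_zero] at h2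
      exact h2) p hp (T.hdq p hp)
  have hvals := finite_values T.hfin hloc
  -- killing
  set B : ℝ := sSup ((fun p => ‖f p‖) '' K) with hB
  have hB0 : 0 ≤ B := by
    apply Real.sSup_nonneg
    rintro _ ⟨p, -, rfl⟩
    exact norm_nonneg _
  have hBf : ∀ p ∈ K, ‖f p‖ ≤ B := by
    intro p hp
    exact le_csSup (hK.image hcf.norm).bddAbove ⟨p, hp, rfl⟩
  obtain ⟨f₁, hf₁, κ, hκ, h1, h2, h3⟩ := kill_all T.hq T.hVq hvals.toFinset.card hvals.toFinset
    rfl hf (fun p hp => Or.inr (hvals.mem_toFinset.2 ⟨p, hp, rfl⟩)) hK hKq (half_pos hε)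
  obtain ⟨δ, hδ, hδ'⟩ := Metric.continuousAt_iff.1 (continuous_exp.continuousAt (x := (0 : ℂ)))
    (ε / 2 / (B + ε)) (by positivity)
  obtain ⟨w, w', hw, hw', hww, hd⟩ := exists_w hcq hK hKq
    (lt_min (half_pos hδ) (half_pos hε))
  obtain ⟨h, hh, hh'⟩ := exists_div T.hq hf₁ h3 T.hdq
  set f' : M → ℂ := fun p => w' (q p) * h p with hf'def
  have hf' : MDifferentiable 𝓘(ℂ, E2) 𝓘(ℂ, ℂ) f' :=
    comp2 (mdiff_comp1 T.hq hw') hh (Φ := fun w => w.1 * w.2)
      (differentiable_fst.mul differentiable_snd)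
  set W : ℂ → ℂ := fun c => c * w c with hW
  have hWd : Differentiable ℂ W := differentiable_id.mul hw
  have hf₁' : ∀ p, f₁ p = W (q p) * f' p := by
    intro p
    rw [hh' p]
    simp only [hW, hf'def]
    linear_combination (-(q p) * h p) * hww (q p)
  have hdV : ∀ p, dV V f₁ p = W (q p) * dV V f' p := by
    intro p
    have e1 : f₁ = fun p => W (q p) * f' p := funext hf₁'
    rw [e1]
    exact dV_mul_left (mdiff_comp1 T.hq hWd) hf' p (dV_first T.hq T.hVq hWd p)
  have hw0 : ∀ c, w' c ≠ 0 := by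
    intro c h0
    have := hww c
    rw [h0, mul_zero] at this
    exact zero_ne_one this
  set u' : M → ℂ := fun p => exp (κ p) * u p * w' (q p) with hu'
  have hu'c : Continuous u' :=
    ((continuous_exp.comp hκ).mul hu).mul (hw'.continuous.comp hcq)
  have key : (fun p => dV V f' p) = fun p => u' p * P p := by
    apply Continuous.ext_on T.dense (continuous_deriv hf' S.hV) (hu'c.mul hP)
    intro p hp
    have hp' : q p ≠ 0 := hp
    have e2 := hdV p
    rw [h1, hVf] at e2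
    have e3 : q p * (dV V f' p - u' p * P p) = 0 := by
      simp only [hW] at e2
      have e4 := hww (q p)
      simp only [hu']
      have e5 : q p * (dV V f' p - exp (κ p) * u p * w' (q p) * P p) =
        w' (q p) * (q p * w (q p) * dV V f' p) -
          q p * (exp (κ p) * u p * w' (q p) * P p) := by
        linear_combination (-(q p) * dV V f' p) * e4
      rw [e5, ← e2]
      ring
    exact sub_eq_zero.1 ((mul_eq_zero.1 e3).resolve_left hp')
  refine ⟨f', hf', u', hu'c, fun p => mul_ne_zero (mul_ne_zero (exp_ne_zero _) (hu0 p)) (hw0 _),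
    fun p => congrFun key p, fun p hp => ?_⟩
  obtain ⟨d, hd1, hd2⟩ := hd p hp
  have hWd' : W (q p) = exp d := hd2
  have hdδ : ‖exp (-d) - 1‖ < ε / 2 / (B + ε) := by
    have h5 := hδ' (x := -d) (by
      rw [dist_zero_right, norm_neg]
      have := hd1.trans (min_le_left _ _)
      linarith)
    rwa [dist_eq_norm, exp_zero] at h5
  have hf'e : f' p = exp (-d) * f₁ p := by
    rw [hf₁' p, hWd', ← mul_assoc, ← exp_add, neg_add_cancel, exp_zero, one_mul]
  refine ⟨?_, κ p - d, ?_, ?_⟩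
  · have e6 : f' p - f p = (exp (-d) - 1) * f₁ p + (f₁ p - f p) := by
      rw [hf'e]
      ring
    have e7 : ‖f₁ p‖ ≤ B + ε := by
      have e8 : f₁ p = f p + (f₁ p - f p) := by ring
      rw [e8]
      refine (norm_add_le _ _).trans ?_
      linarith [hBf p hp, (h2 p hp).1]
    rw [e6]
    refine (norm_add_le _ _).trans ?_
    have e9 : ‖(exp (-d) - 1) * f₁ p‖ ≤ ε / 2 := by
      rw [norm_mul]
      calc ‖exp (-d) - 1‖ * ‖f₁ p‖ ≤ (ε / 2 / (B + ε)) * (B + ε) := by
            apply mul_le_mul hdδ.le e7 (norm_nonneg _) (by positivity)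
        _ = ε / 2 := by
            field_simp
    linarith [(h2 p hp).1]
  · refine (norm_sub_le _ _).trans ?_
    have := hd1.trans (min_le_right _ _)
    linarith [(h2 p hp).2]
  · have e10 := hdV p
    rw [h1, hWd'] at e10
    rw [exp_sub]
    field_simp
    rw [e10]
    ring

end Pool.Agent.Immers
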